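import Pool.Agent.Helper47.CK.Data

/-!
# The weight idempotents act on cohomology as the degree projectors
-/

set_option autoImplicit false

namespace Pool.Agent.Helper47.CK

section

variable {R : Type*} [Ring R] [Algebra ℚ R] {A : ℤ → Submodule ℚ R} {e : R} {n : ℕ}

theorem LefData.e_pow_w (D : LefData A e n) (k : ℕ) (m : ℤ) :
    e ^ k * D.w m = D.w (m + 2 * k) * e ^ k := by
  induction k generalizing m with
  | zero => simp
  | succ k ih =>
    rw [pow_succ, mul_assoc, D.e_w, ← mul_assoc, ih, mul_assoc]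
    congr 2
    push_cast; ring

/-- The action on a graded vector space satisfying hard Lefschetz for `e`. -/
structure GrAct (A : ℤ → Submodule ℚ R) (e : R) (d : ℕ) (H : Type*) [AddCommGroup H]
    [Module ℚ H] where
  coh : ℤ → Submodule ℚ H
  rho : R →+* Module.End ℚ H
  rho_mem : ∀ (k j : ℤ) (x : R) (y : H), x ∈ A k → y ∈ coh j → rho x y ∈ coh (j + 2 * k)
  coh_bot : ∀ j : ℤ, (j < 0 ∨ 2 * (d : ℤ) < j) → coh j = ⊥
  inj : ∀ k : ℕ, k ≤ d → ∀ x ∈ coh (d - k), rho (e ^ k) x = 0 → x = 0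
  surj : ∀ k : ℕ, k ≤ d → ∀ y ∈ coh (d + k), ∃ x ∈ coh (d - k), rho (e ^ k) x = y

variable {d : ℕ} {H : Type*} [AddCommGroup H] [Module ℚ H]

/-- There is a nonzero class of degree `d + k` and motivic weight `m`. -/
def GrAct.P (G : GrAct A e d H) (D : LefData A e n) (m k : ℤ) : Prop :=
  ∃ y : H, y ≠ 0 ∧ y ∈ G.coh (d + k) ∧ G.rho (D.w m) y = y

theorem GrAct.comp_apply (G : GrAct A e d H) (x y : R) (z : H) :
    G.rho x (G.rho y z) = G.rho (x * y) z := by
  rw [map_mul, Module.End.mul_apply]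

variable (h1 : (1 : R) ∈ A 0)
    (hmul : ∀ (a b : ℤ) (x y : R), x ∈ A a → y ∈ A b → x * y ∈ A (a + b)) (he : e ∈ A 1)

include h1 hmul he

theorem GrAct.refl_one (G : GrAct A e d H) (D : LefData A e n) (m k : ℤ)
    (h : G.P D m k) : G.P D (-m) (k - 2 * m) := by
  obtain ⟨y, hy0, hy1, hy2⟩ := h
  rcases le_total m 0 with hm | hm
  · obtain ⟨a, ha⟩ := Int.eq_ofNat_of_zero_le (show 0 ≤ -m by omega)
    have hma : m = -(a : ℤ) := by omega
    have key : G.rho (D.lam a) (G.rho (e ^ a) y) = y := by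
      conv_lhs => rw [← hy2]
      rw [G.comp_apply, G.comp_apply, hma, D.lam_e, ← hma, hy2]
    refine ⟨G.rho (e ^ a) y, fun h0 => hy0 ?_, ?_, ?_⟩
    · rw [← key, h0, map_zero]
    · have := G.rho_mem _ _ _ _ (pow_deg h1 hmul he a) hy1
      convert this using 2
      rw [hma]; ring
    · have h3 : D.w (-m) * e ^ a = e ^ a * D.w m := by
        rw [D.e_pow_w]; congr 2; omega
      rw [G.comp_apply, h3, ← G.comp_apply, hy2]
  · obtain ⟨a, ha⟩ := Int.eq_ofNat_of_zero_le hm
    have key : G.rho (e ^ a) (G.rho (D.lam a) y) = y := by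
      conv_lhs => rw [← hy2]
      rw [G.comp_apply, G.comp_apply, ha, D.e_lam, ← ha, hy2]
    refine ⟨G.rho (D.lam a) y, fun h0 => hy0 ?_, ?_, ?_⟩
    · rw [← key, h0, map_zero]
    · have := G.rho_mem _ _ _ _ (D.lam_deg a) hy1
      convert this using 2
      rw [ha]; ring
    · have h3 : D.w (-m) * D.lam a = D.lam a * D.w m := by
        rw [D.lam_w]; congr 2; omega
      rw [G.comp_apply, h3, ← G.comp_apply, hy2]

theorem GrAct.refl_two (G : GrAct A e d H) (D : LefData A e n) (m k : ℤ)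
    (h : G.P D m k) : G.P D (m - 2 * k) (-k) := by
  obtain ⟨y, hy0, hy1, hy2⟩ := h
  have hkd : |k| ≤ d := by
    by_contra hcon
    have hbot : G.coh (d + k) = ⊥ := G.coh_bot _ (by
      rcases abs_cases k with ⟨h, _⟩ | ⟨h, _⟩ <;> omega)
    rw [hbot] at hy1
    exact hy0 ((Submodule.mem_bot ℚ).1 hy1)
  rcases le_total k 0 with hk | hk
  · obtain ⟨a, ha⟩ := Int.eq_ofNat_of_zero_le (show 0 ≤ -k by omega)
    have hka : k = -(a : ℤ) := by omega
    have had : a ≤ d := by rw [hka, abs_neg, Nat.abs_cast] at hkd; omega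
    refine ⟨G.rho (e ^ a) y, fun h0 => hy0 ?_, ?_, ?_⟩
    · refine G.inj a had y ?_ h0
      convert hy1 using 2
      omega
    · have := G.rho_mem _ _ _ _ (pow_deg h1 hmul he a) hy1
      convert this using 2
      rw [hka]; ring
    · have h3 : D.w (m - 2 * k) * e ^ a = e ^ a * D.w m := by
        rw [D.e_pow_w]; congr 2; omega
      rw [G.comp_apply, h3, ← G.comp_apply, hy2]
  · obtain ⟨a, ha⟩ := Int.eq_ofNat_of_zero_le hk
    have had : a ≤ d := by rw [ha, Nat.abs_cast] at hkd; omega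
    obtain ⟨z, hz1, hz2⟩ := G.surj a had y (by convert hy1 using 2; omega)
    have h3 : G.rho (e ^ a) (G.rho (D.w (m - 2 * k)) z) = y := by
      have h4 : e ^ a * D.w (m - 2 * k) = D.w m * e ^ a := by
        rw [D.e_pow_w]; congr 2; omega
      rw [G.comp_apply, h4, ← G.comp_apply, hz2, hy2]
    refine ⟨G.rho (D.w (m - 2 * k)) z, fun h0 => hy0 ?_, ?_, ?_⟩
    · rw [← h3, h0, map_zero]
    · have := G.rho_mem _ _ _ _ (D.w_deg (m - 2 * k)) hz1
      convert this using 2
      omega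
    · rw [G.comp_apply, D.w_idem]

theorem GrAct.trans (G : GrAct A e d H) (D : LefData A e n) (m k : ℤ)
    (h : G.P D m k) (t : ℕ) : G.P D (m + 2 * t * (m - k)) (k + 2 * t * (m - k)) := by
  induction t with
  | zero => simpa using h
  | succ t ih =>
    have := G.refl_two h1 hmul he D _ _ (G.refl_one h1 hmul he D _ _ ih)
    convert this using 1
    · push_cast; ring
    · push_cast; ring

theorem GrAct.weight_eq (G : GrAct A e d H) (D : LefData A e n) (m k : ℤ)
    (h : G.P D m k) : m = k := by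
  by_contra hmk
  have hk0 : ∀ m k : ℤ, G.P D m k → |k| ≤ d := by
    rintro m k ⟨y, hy0, hy1, hy2⟩
    by_contra hcon
    have hbot : G.coh (d + k) = ⊥ := G.coh_bot _ (by
      rcases abs_cases k with ⟨h, _⟩ | ⟨h, _⟩ <;> omega)
    rw [hbot] at hy1
    exact hy0 ((Submodule.mem_bot ℚ).1 hy1)
  have h2 := hk0 _ _ (G.trans h1 hmul he D m k h (d + 1))
  have h3 := hk0 _ _ h
  rw [abs_le] at h2 h3
  push_cast at h2
  rcases lt_or_gt_of_ne hmk with h4 | h4
  · have : 2 * ((d : ℤ) + 1) * (m - k) ≤ -(2 * ((d : ℤ) + 1)) := by nlinarith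
    omega
  · have : 2 * ((d : ℤ) + 1) ≤ 2 * ((d : ℤ) + 1) * (m - k) := by nlinarith
    omega

/-- The weight idempotents kill the cohomology in the wrong degrees. -/
theorem GrAct.w_zero (G : GrAct A e d H) (D : LefData A e n) (m j : ℤ) (hj : j ≠ m + d)
    (x : H) (hx : x ∈ G.coh j) : G.rho (D.w m) x = 0 := by
  by_contra h0
  refine hj ?_
  have := G.weight_eq h1 hmul he D m (j - d) ⟨G.rho (D.w m) x, h0, ?_, ?_⟩
  · omega
  · have h2 := G.rho_mem _ _ _ _ (D.w_deg m) hx
    convert h2 using 2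
    ring
  · rw [G.comp_apply, D.w_idem]

theorem GrAct.w_id (G : GrAct A e d H) (D : LefData A e n) (m j : ℤ) (hj : j = m + d)
    (x : H) (hx : x ∈ G.coh j) : G.rho (D.w m) x = x := by
  have h2 : ∑ m' ∈ Finset.Icc (-(n : ℤ)) n, G.rho (D.w m') x = x := by
    rw [← LinearMap.sum_apply, ← map_sum, D.w_sum, map_one, Module.End.one_apply]
  by_cases hm : m ∈ Finset.Icc (-(n : ℤ)) n
  · rw [Finset.sum_eq_single_of_mem m hm] at h2
    · exact h2
    · intro m' _ hm'
      exact G.w_zero h1 hmul he D m' j (by omega) x hx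
  · rw [Finset.sum_eq_zero] at h2
    · rw [← h2, map_zero]
    · intro m' hm'
      exact G.w_zero h1 hmul he D m' j (fun h => hm (by
        have : m' = m := by omega
        rwa [← this])) x hx

end

end Pool.Agent.Helper47.CK
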