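import Pool.Agent.Helper47.CK.MainE

/-!
# Converse: motivic hard Lefschetz implies the linear Lefschetz equation
-/

set_option autoImplicit false

namespace Pool.Agent.Helper47.CK

variable {R : Type*} [Ring R] [Algebra ℚ R] {A : ℤ → Submodule ℚ R} {e : R} {n : ℕ}

/-- The operator `f` on the weight `-k` part. -/
noncomputable def LefData.g (D : LefData A e n) (k : ℕ) : R :=
  if n < k then 0 else
    (e * D.g (k + 2) + ((k + 2 : ℕ) : R)) * D.lam (k + 2) * e ^ (k + 1) * D.w (-k)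
termination_by n + 1 - k

theorem LefData.g_eq (D : LefData A e n) (k : ℕ) :
    D.g k = (e * D.g (k + 2) + ((k + 2 : ℕ) : R)) * D.lam (k + 2) * e ^ (k + 1) * D.w (-k) := by
  rw [LefData.g]
  split_ifs with h
  · rw [D.w_out (-(k : ℤ)) (fun h2 => by have := Finset.mem_Icc.1 h2; omega), mul_zero]
  · rfl

theorem LefData.g_w (D : LefData A e n) (k : ℕ) : D.g k * D.w (-k) = D.g k := by
  rw [D.g_eq k, mul_assoc, D.w_idem]

/-- The operator `f` on the weight `k` part. -/
noncomputable def LefData.F (D : LefData A e n) (k : ℕ) : R :=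
  (e ^ k * D.g k + (k : R) * e ^ (k - 1)) * D.lam k * D.w k

theorem LefData.F_w (D : LefData A e n) (k : ℕ) : D.F k * D.w k = D.F k := by
  rw [LefData.F, mul_assoc, D.w_idem]

theorem LefData.F_zero (D : LefData A e n) : D.F 0 = D.g 0 := by
  have h1 := D.lam_e 0
  have h2 := D.g_w 0
  rw [Nat.cast_zero, neg_zero] at h1 h2
  rw [pow_zero, mul_one] at h1
  rw [LefData.F, Nat.cast_zero, zero_mul, add_zero, pow_zero, one_mul, mul_assoc,
    Nat.cast_zero, h1, h2]

/-- Components of `f`. -/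
noncomputable def LefData.ph (D : LefData A e n) (m : ℤ) : R :=
  if m ≤ 0 then D.g (-m).toNat else D.F m.toNat

theorem LefData.ph_neg (D : LefData A e n) (k : ℕ) : D.ph (-(k : ℤ)) = D.g k := by
  rw [LefData.ph, if_pos (by omega), neg_neg, Int.toNat_natCast]

theorem LefData.ph_pos (D : LefData A e n) (k : ℕ) : D.ph (k : ℤ) = D.F k := by
  rw [LefData.ph]
  split_ifs with h
  · obtain rfl : k = 0 := by omega
    simp [D.F_zero]
  · rw [Int.toNat_natCast]

theorem LefData.ph_w (D : LefData A e n) (m : ℤ) : D.ph m * D.w m = D.ph m := by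
  rcases le_total m 0 with h | h
  · obtain ⟨k, hk⟩ := Int.eq_ofNat_of_zero_le (show 0 ≤ -m by omega)
    obtain rfl : m = -(k : ℤ) := by omega
    rw [D.ph_neg, D.g_w]
  · obtain ⟨k, rfl⟩ := Int.eq_ofNat_of_zero_le h
    rw [D.ph_pos, D.F_w]

/-- The operator `f`. -/
noncomputable def LefData.f (D : LefData A e n) : R := ∑ m ∈ Finset.Icc (-(n : ℤ)) n, D.ph m

theorem LefData.f_w (D : LefData A e n) (m : ℤ) : D.f * D.w m = D.ph m := by
  by_cases hm : m ∈ Finset.Icc (-(n : ℤ)) n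
  · rw [LefData.f, Finset.sum_mul, Finset.sum_eq_single_of_mem m hm, D.ph_w]
    intro j _ hj
    rw [← D.ph_w j, mul_assoc, D.w_orth _ _ hj, mul_zero]
  · rw [D.w_out m hm, mul_zero, ← D.ph_w m, D.w_out m hm, mul_zero]

theorem LefData.f_e_w (D : LefData A e n) (m : ℤ) : D.f * e * D.w m = D.ph (m + 2) * e * D.w m := by
  rw [mul_assoc, mul_assoc, D.e_w, ← mul_assoc, D.f_w, ← mul_assoc, D.ph_w]

theorem LefData.e_w_w (D : LefData A e n) (m : ℤ) : D.w (m + 2) * (e * D.w m) = e * D.w m := by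
  rw [D.e_w, ← mul_assoc, D.w_idem]

theorem LefData.rel (D : LefData A e n) (m : ℤ) :
    (e * D.f - D.f * e) * D.w m = (m : R) * D.w m := by
  rw [sub_mul, mul_assoc, D.f_w, D.f_e_w]
  rcases lt_trichotomy m (-1) with h | h | h
  · obtain ⟨k, hk⟩ := Int.eq_ofNat_of_zero_le (show 0 ≤ -m - 2 by omega)
    obtain rfl : m = -((k + 2 : ℕ) : ℤ) := by push_cast; omega
    have h1 : (-((k + 2 : ℕ) : ℤ) + 2) = -(k : ℤ) := by push_cast; ring
    have h2 := D.e_w_w (-((k + 2 : ℕ) : ℤ))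
    rw [h1] at h2
    have h3 := D.lam_e (k + 2)
    rw [h1, D.ph_neg, D.ph_neg, D.g_eq k]
    have h4 : (e * D.g (k + 2) + ((k + 2 : ℕ) : R)) * D.lam (k + 2) * e ^ (k + 1) * D.w (-k) * e *
        D.w (-((k + 2 : ℕ) : ℤ)) = e * D.g (k + 2) + ((k + 2 : ℕ) : R) * D.w (-((k + 2 : ℕ) : ℤ)) := by
      calc _ = (e * D.g (k + 2) + ((k + 2 : ℕ) : R)) * (D.lam (k + 2) * e ^ (k + 1) *
            (D.w (-k) * (e * D.w (-((k + 2 : ℕ) : ℤ))))) := by simp only [mul_assoc]
        _ = (e * D.g (k + 2) + ((k + 2 : ℕ) : R)) * (D.lam (k + 2) * e ^ (k + 2) *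
            D.w (-((k + 2 : ℕ) : ℤ))) := by
            rw [h2, pow_succ e (k + 1)]; simp only [mul_assoc]
        _ = _ := by rw [h3, add_mul, mul_assoc, D.g_w]
    rw [h4]
    push_cast
    noncomm_ring
  · subst h
    have h0 : ((1 : ℕ) : ℤ) = (-1 + 2 : ℤ) := by norm_num
    have h2 := D.e_w_w (-1)
    have h3 := D.lam_e 1
    rw [pow_one] at h3
    have h5 : D.ph (-1) = D.g 1 := D.ph_neg 1
    rw [← h0] at h2 ⊢
    rw [D.ph_pos, h5, LefData.F]
    have h4 : (e ^ 1 * D.g 1 + ((1 : ℕ) : R) * e ^ (1 - 1)) * D.lam 1 * D.w ((1 : ℕ) : ℤ) * e *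
        D.w (-1) = e * D.g 1 + D.w (-1) := by
      calc _ = (e ^ 1 * D.g 1 + ((1 : ℕ) : R) * e ^ (1 - 1)) * (D.lam 1 * (D.w ((1 : ℕ) : ℤ) *
            (e * D.w (-1)))) := by simp only [mul_assoc]
        _ = (e * D.g 1 + 1) * (D.lam 1 * e * D.w (-1)) := by
            rw [h2, pow_one, Nat.cast_one, Nat.sub_self, pow_zero, one_mul]
            simp only [mul_assoc]
        _ = _ := by
            have h3' : D.lam 1 * e * D.w (-1) = D.w (-1) := h3
            have h6 : D.g 1 * D.w (-1) = D.g 1 := D.g_w 1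
            rw [h3', add_mul, mul_assoc, h6, one_mul]
    rw [h4]
    push_cast
    noncomm_ring
  · obtain ⟨k, rfl⟩ := Int.eq_ofNat_of_zero_le (show 0 ≤ m by omega)
    have h2 := D.e_w_w (k : ℤ)
    have h0 : ((k : ℤ) + 2) = ((k + 2 : ℕ) : ℤ) := by push_cast; ring
    rw [h0] at h2 ⊢
    rw [D.ph_pos, D.ph_pos]
    have h3 := D.e_lam k
    have h4 : e * D.F k = e ^ (k + 1) * D.g k * D.lam k * D.w k + (k : R) * D.w k := by
      rcases Nat.eq_zero_or_pos k with hk | hk
      · subst hk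
        rw [LefData.F, Nat.cast_zero, zero_mul, zero_mul, add_zero, add_zero, pow_zero, one_mul,
          zero_add, pow_one]
        simp only [mul_assoc]
      · have h5 : e * ((k : R) * e ^ (k - 1)) = (k : R) * e ^ k := by
          rw [← mul_assoc, ← (Nat.cast_commute k e).eq, mul_assoc, ← pow_succ',
            Nat.sub_add_cancel hk]
        rw [LefData.F, ← mul_assoc, ← mul_assoc, mul_add, h5, add_mul, add_mul, mul_assoc (k : R),
          mul_assoc (k : R), h3, ← mul_assoc e, ← pow_succ']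
    have h6 : D.F (k + 2) * e * D.w k = e ^ (k + 1) * D.g k * D.lam k * D.w k := by
      have h7 : e * D.w k = e ^ (k + 1) * (D.lam k * D.w k) := by
        conv_lhs => rw [← h3]
        rw [pow_succ']; simp only [mul_assoc]
      have h8 : D.lam k * D.w k = D.w (-k) * (D.lam k * D.w k) := by
        have := D.lam_w k k
        rw [show ((k : ℤ) - 2 * k) = -k by ring] at this
        rw [this, ← mul_assoc, D.w_idem]
      have h9 : e ^ (k + 2) * D.g (k + 2) + ((k + 2 : ℕ) : R) * e ^ (k + 2 - 1) =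
          e ^ (k + 1) * (e * D.g (k + 2) + ((k + 2 : ℕ) : R)) := by
        rw [mul_add, ← mul_assoc, ← pow_succ, ← (Nat.cast_commute (k + 2) (e ^ (k + 1))).eq]
        rfl
      calc D.F (k + 2) * e * D.w k
          = (e ^ (k + 2) * D.g (k + 2) + ((k + 2 : ℕ) : R) * e ^ (k + 2 - 1)) *
            (D.lam (k + 2) * (D.w ((k + 2 : ℕ) : ℤ) * (e * D.w k))) := by
              rw [LefData.F]; simp only [mul_assoc]
        _ = e ^ (k + 1) * ((e * D.g (k + 2) + ((k + 2 : ℕ) : R)) * D.lam (k + 2) *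
            e ^ (k + 1) * D.w (-k)) * (D.lam k * D.w k) := by
              rw [h2, h7, h9]
              conv_lhs => rw [h8]
              simp only [mul_assoc]
        _ = _ := by rw [← D.g_eq k]; simp only [mul_assoc]
    rw [h4, h6, add_sub_cancel_left, Int.cast_natCast]

theorem LefData.linEq (D : LefData A e n) : LinEq e D.f := by
  rw [linEq_iff]
  set h := e * D.f - D.f * e with hh
  have h1 : ∀ m : ℤ, (e * h - h * e) * D.w m = -(2 * e) * D.w m := by
    intro m
    rw [sub_mul, mul_assoc, D.rel, mul_assoc h, D.e_w, ← mul_assoc h, D.rel, mul_assoc,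
      ← D.e_w, ← mul_assoc, ← (Int.cast_commute m e).eq]
    push_cast
    noncomm_ring
  calc e * h - h * e = (e * h - h * e) * ∑ m ∈ Finset.Icc (-(n : ℤ)) n, D.w m := by
        rw [D.w_sum, mul_one]
    _ = -(2 * e) * ∑ m ∈ Finset.Icc (-(n : ℤ)) n, D.w m := by
        rw [Finset.mul_sum, Finset.mul_sum]
        exact Finset.sum_congr rfl fun m _ => h1 m
    _ = _ := by rw [D.w_sum, mul_one]

theorem LefData.f_mem (D : LefData A e n) (h1 : (1 : R) ∈ A 0)
    (hmul : ∀ (a b : ℤ) (x y : R), x ∈ A a → y ∈ A b → x * y ∈ A (a + b)) (he : e ∈ A 1) :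
    D.f ∈ A (-1) := by
  have hN : ∀ k : ℕ, (k : R) ∈ A 0 := by
    intro k
    rw [← nsmul_one k]
    exact (A 0).nsmul_mem h1 k
  have hg : ∀ t k : ℕ, n + 1 - k ≤ t → D.g k ∈ A (-1) := by
    intro t
    induction t with
    | zero =>
      intro k hk
      rw [D.g_eq k, D.w_out (-(k : ℤ)) (fun h2 => by have := Finset.mem_Icc.1 h2; omega), mul_zero]
      exact (A (-1)).zero_mem
    | succ t ih =>
      intro k hk
      by_cases hkn : n < k
      · rw [D.g_eq k, D.w_out (-(k : ℤ)) (fun h2 => by have := Finset.mem_Icc.1 h2; omega), mul_zero]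
        exact (A (-1)).zero_mem
      · rw [D.g_eq k]
        have h2 : e * D.g (k + 2) ∈ A 0 := by
          have := hmul _ _ _ _ he (ih (k + 2) (by omega))
          simpa using this
        have h3 := hmul _ _ _ _ (hmul _ _ _ _ (hmul _ _ _ _ ((A 0).add_mem h2 (hN (k + 2)))
          (D.lam_deg (k + 2))) (pow_deg h1 hmul he (k + 1))) (D.w_deg (-k))
        have h4 : (0 + -((k + 2 : ℕ) : ℤ) + ((k + 1 : ℕ) : ℤ) * 1 + 0) = -1 := by
          push_cast; ring
        rwa [h4] at h3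
  have hF : ∀ k : ℕ, D.F k ∈ A (-1) := by
    intro k
    rcases Nat.eq_zero_or_pos k with hk | hk
    · rw [hk, D.F_zero]; exact hg _ _ le_rfl
    · rw [LefData.F]
      have h2 := hmul _ _ _ _ (pow_deg h1 hmul he k) (hg _ k le_rfl)
      have h3 := hmul _ _ _ _ (hN k) (pow_deg h1 hmul he (k - 1))
      have e1 : ((k : ℤ) * 1 + -1) = k - 1 := by ring
      have e2 : (0 + ((k - 1 : ℕ) : ℤ) * 1) = k - 1 := by omega
      rw [e1] at h2
      rw [e2] at h3
      have h4 := hmul _ _ _ _ (hmul _ _ _ _ ((A _).add_mem h2 h3) (D.lam_deg k)) (D.w_deg k)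
      have e3 : ((k : ℤ) - 1 + -(k : ℤ) + 0) = -1 := by ring
      rwa [e3] at h4
  refine (A (-1)).sum_mem fun m _ => ?_
  rw [LefData.ph]
  split_ifs
  · exact hg _ _ le_rfl
  · exact hF _

end Pool.Agent.Helper47.CK
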