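import Pool.Agent.Helper47.CK.Lam

/-!
# Weight idempotents and Lefschetz inverses from the linear Lefschetz equation
-/

set_option autoImplicit false

open Polynomial

namespace Pool.Agent.Helper47.CK

/-- Weight idempotents and Lefschetz inverses for `e` in a graded ring. -/
structure LefData {R : Type*} [Ring R] [Algebra ℚ R] (A : ℤ → Submodule ℚ R) (e : R)
    (n : ℕ) where
  w : ℤ → R
  lam : ℕ → R
  w_deg : ∀ m, w m ∈ A 0
  w_idem : ∀ m, w m * w m = w m
  w_orth : ∀ m m', m ≠ m' → w m * w m' = 0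
  w_out : ∀ m, m ∉ Finset.Icc (-(n : ℤ)) n → w m = 0
  w_sum : ∑ m ∈ Finset.Icc (-(n : ℤ)) n, w m = 1
  e_w : ∀ m, e * w m = w (m + 2) * e
  lam_deg : ∀ k : ℕ, lam k ∈ A (-k)
  lam_w : ∀ (k : ℕ) m, lam k * w m = w (m - 2 * k) * lam k
  lam_e : ∀ k : ℕ, lam k * e ^ k * w (-k) = w (-k)
  e_lam : ∀ k : ℕ, e ^ k * lam k * w k = w k

section Ring

variable {R : Type*} [Ring R] [Algebra ℚ R]

theorem zero_closed {A : ℤ → Submodule ℚ R} (h1 : (1 : R) ∈ A 0)
    (hmul : ∀ (a b : ℤ) (x y : R), x ∈ A a → y ∈ A b → x * y ∈ A (a + b)) :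
    ∃ S : Subalgebra ℚ R, ∀ x, x ∈ S ↔ x ∈ A 0 := by
  refine ⟨(A 0).toSubalgebra h1 fun x y hx hy => ?_, fun x => Iff.rfl⟩
  simpa using hmul 0 0 x y hx hy

theorem pow_deg {A : ℤ → Submodule ℚ R} (h1 : (1 : R) ∈ A 0)
    (hmul : ∀ (a b : ℤ) (x y : R), x ∈ A a → y ∈ A b → x * y ∈ A (a + b)) {a : ℤ} {x : R}
    (hx : x ∈ A a) (k : ℕ) : x ^ k ∈ A (k * a) := by
  induction k with
  | zero => simpa using h1
  | succ k ih =>
    have := hmul _ _ _ _ ih hx
    rw [pow_succ]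
    convert this using 2
    push_cast; ring

theorem exists_data {A : ℤ → Submodule ℚ R} {n : ℕ} (h1 : (1 : R) ∈ A 0)
    (hmul : ∀ (a b : ℤ) (x y : R), x ∈ A a → y ∈ A b → x * y ∈ A (a + b))
    (hbot : ∀ k : ℤ, (n : ℤ) < |k| → A k = ⊥) {e f : R} (he : e ∈ A 1) (hf : f ∈ A (-1))
    (hL : e * e * f - 2 * (e * f * e) + f * e * e = -(2 * e)) :
    Nonempty (LefData A e n) := by
  set h := e * f - f * e with hh
  have hh0 : h ∈ A 0 := (A 0).sub_mem (by simpa using hmul _ _ _ _ he hf)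
    (by simpa using hmul _ _ _ _ hf he)
  have hE : h * e - e * h = 2 * e := by
    have : h * e - e * h = -(e * e * f - 2 * (e * f * e) + f * e * e) := by
      rw [hh]; noncomm_ring
    rw [this, hL, neg_neg]
  have hen : e ^ (n + 1) = 0 := by
    have h2 := pow_deg h1 hmul he (n + 1)
    rw [hbot _ (by rw [mul_one, Nat.abs_cast]; push_cast; omega)] at h2
    simpa using h2
  obtain ⟨f', hf', hH', hF'⟩ := morozov (e := e) (f := f) (h := h) rfl hE ⟨n + 1, hen⟩ (A (-1))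
    (fun x hx => (A (-1)).sub_mem (by simpa using hmul _ _ _ _ hh0 hx)
      (by simpa using hmul _ _ _ _ hx hh0)) hf
  have hfn : f' ^ (n + 1) = 0 := by
    have h2 := pow_deg h1 hmul hf' (n + 1)
    rw [hbot _ (by rw [mul_neg, mul_one, abs_neg, Nat.abs_cast]; push_cast; omega)] at h2
    simpa using h2
  obtain ⟨S, hS⟩ := zero_closed h1 hmul
  choose u hu hue huf using fun k : ℕ => exists_lam hH' hE hF' hen hfn k
  have hg := gPoly_ring hH' hE hen
  have ht0 : ∀ k : ℕ, f' ^ k * e ^ k ∈ A 0 := by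
    intro k
    have := hmul _ _ _ _ (pow_deg h1 hmul hf' k) (pow_deg h1 hmul he k)
    simpa using this
  have hu0 : ∀ k : ℕ, u k ∈ A 0 := by
    intro k
    rw [← hS]
    have : Algebra.adjoin ℚ {f' ^ k * e ^ k} ≤ S := by
      rw [Algebra.adjoin_le_iff, Set.singleton_subset_iff]
      exact (hS _).2 (ht0 k)
    exact this (hu k)
  have hhu : ∀ k : ℕ, h * u k = u k * h := by
    intro k
    have hmem := hu k
    rw [Algebra.adjoin_singleton_eq_range_aeval] at hmem
    obtain ⟨p, hp⟩ := hmem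
    rw [← hp]
    exact (commute_aeval (comm_t hE hF' k) p).eq
  refine ⟨⟨wt n (n + 1) h, fun k => u k * f' ^ k, ?_, wt_idem hg, fun m m' hmm => wt_orth hg hmm,
    fun m hm => wt_of_notMem hg hm, wt_sum hg, ?_, ?_, ?_, hue, huf⟩⟩
  · intro m
    rw [← hS]
    have : Algebra.adjoin ℚ {h} ≤ S := by
      rw [Algebra.adjoin_le_iff, Set.singleton_subset_iff]
      exact (hS _).2 hh0
    exact this (aeval_mem_adjoin_singleton ℚ h)
  · intro m
    refine wt_shift hg ?_ m
    rw [hE, zsmul_eq_mul]; push_cast; rfl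
  · intro k
    have := hmul _ _ _ _ (hu0 k) (pow_deg h1 hmul hf' k)
    simpa using this
  · intro k m
    rw [sub_eq_add_neg]
    refine wt_shift hg ?_ m
    rw [← mul_assoc, hhu, mul_assoc, mul_assoc, ← mul_sub, wt_f_pow hF' k, mul_smul_comm]

end Ring

end Pool.Agent.Helper47.CK
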