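import Mathlib

/-!
# Generalised weight idempotents of an element annihilated by `∏_{|t| ≤ n} (X - t)^M`
-/

set_option autoImplicit false

open Polynomial

namespace Pool.Agent.Helper47.CK

/-- `∏_{|t| ≤ n} (X - t)^M`. -/
noncomputable def gPoly (n M : ℕ) : ℚ[X] := ∏ t ∈ Finset.Icc (-(n : ℤ)) n, (X - C (t : ℚ)) ^ M

/-- `∏_{|t| ≤ n, t ≠ m} (X - t)^M`. -/
noncomputable def tPoly (n M : ℕ) (m : ℤ) : ℚ[X] :=
  ∏ t ∈ (Finset.Icc (-(n : ℤ)) n).erase m, (X - C (t : ℚ)) ^ M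

theorem coprime_lin {s t : ℤ} (h : s ≠ t) (M : ℕ) :
    IsCoprime ((X - C (s : ℚ)) ^ M) ((X - C (t : ℚ)) ^ M) := by
  refine IsCoprime.pow (isCoprime_X_sub_C_of_isUnit_sub ?_)
  rw [isUnit_iff_ne_zero, sub_ne_zero]
  exact_mod_cast h

theorem coprime_tPoly (n M : ℕ) (m : ℤ) : IsCoprime ((X - C (m : ℚ)) ^ M) (tPoly n M m) := by
  refine IsCoprime.prod_right fun t ht => ?_
  exact coprime_lin (Finset.ne_of_mem_erase ht).symm M

theorem exists_pPoly (n M : ℕ) (m : ℤ) :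
    ∃ p a : ℚ[X], a * (X - C (m : ℚ)) ^ M + p = 1 ∧ tPoly n M m ∣ p := by
  obtain ⟨a, b, hab⟩ := coprime_tPoly n M m
  exact ⟨b * tPoly n M m, a, hab, Dvd.intro_left _ rfl⟩

/-- The polynomial which is `1` modulo `(X - m)^M` and `0` modulo `(X - t)^M`, `t ≠ m`. -/
noncomputable def pPoly (n M : ℕ) (m : ℤ) : ℚ[X] := (exists_pPoly n M m).choose

theorem pPoly_spec (n M : ℕ) (m : ℤ) :
    ∃ a : ℚ[X], a * (X - C (m : ℚ)) ^ M + pPoly n M m = 1 := by
  obtain ⟨a, h, -⟩ := (exists_pPoly n M m).choose_spec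
  exact ⟨a, h⟩

theorem tPoly_dvd (n M : ℕ) (m : ℤ) : tPoly n M m ∣ pPoly n M m := by
  obtain ⟨a, -, h⟩ := (exists_pPoly n M m).choose_spec
  exact h

theorem lin_dvd_pPoly (n M : ℕ) {m t : ℤ} (ht : t ∈ Finset.Icc (-(n : ℤ)) n) (h : t ≠ m) :
    (X - C (t : ℚ)) ^ M ∣ pPoly n M m :=
  (Finset.dvd_prod_of_mem (fun t : ℤ => (X - C (t : ℚ)) ^ M)
    (Finset.mem_erase.2 ⟨h, ht⟩)).trans (tPoly_dvd n M m)

theorem gPoly_dvd_mul (n M : ℕ) (m : ℤ) :
    gPoly n M ∣ (X - C (m : ℚ)) ^ M * pPoly n M m := by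
  by_cases hm : m ∈ Finset.Icc (-(n : ℤ)) n
  · rw [gPoly, ← Finset.mul_prod_erase _ _ hm]
    exact mul_dvd_mul_left _ (tPoly_dvd n M m)
  · refine Dvd.dvd.mul_left ?_ _
    have := tPoly_dvd n M m
    rwa [tPoly, Finset.erase_eq_of_notMem hm] at this

theorem gPoly_dvd_of_notMem (n M : ℕ) {m : ℤ} (hm : m ∉ Finset.Icc (-(n : ℤ)) n) :
    gPoly n M ∣ pPoly n M m := by
  have := tPoly_dvd n M m
  rwa [tPoly, Finset.erase_eq_of_notMem hm] at this

theorem gPoly_dvd_sum (n M : ℕ) :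
    gPoly n M ∣ 1 - ∑ m ∈ Finset.Icc (-(n : ℤ)) n, pPoly n M m := by
  refine Finset.prod_dvd_of_coprime ?_ ?_
  · intro s _ t _ hst
    exact coprime_lin hst M
  · intro t ht
    rw [← Finset.add_sum_erase _ _ ht, ← sub_sub]
    refine dvd_sub ?_ (Finset.dvd_sum fun s hs => ?_)
    · obtain ⟨a, ha⟩ := pPoly_spec n M t
      rw [← ha, add_sub_cancel_right]
      exact Dvd.intro_left _ rfl
    · exact lin_dvd_pPoly n M ht (Finset.ne_of_mem_erase hs).symm

section Ring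

variable {R : Type*} [Ring R] [Algebra ℚ R]

/-- The idempotent of generalised weight `m`. -/
noncomputable def wt (n M : ℕ) (h : R) (m : ℤ) : R := aeval h (pPoly n M m)

theorem aeval_lin (h : R) (m : ℤ) (M : ℕ) :
    aeval h ((X - C (m : ℚ)) ^ M) = (h - (m : R)) ^ M := by
  simp

variable {n M : ℕ} {h : R}

theorem aeval_of_dvd {p q : ℚ[X]} (hp : aeval h p = 0) (hd : p ∣ q) : aeval h q = 0 := by
  obtain ⟨r, rfl⟩ := hd
  rw [map_mul, hp, zero_mul]

theorem lin_mul_wt (hg : aeval h (gPoly n M) = 0) (m : ℤ) :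
    (h - (m : R)) ^ M * wt n M h m = 0 := by
  rw [← aeval_lin, wt, ← map_mul]
  exact aeval_of_dvd hg (gPoly_dvd_mul n M m)

theorem wt_mul_eq (x : R) (m : ℤ) (hx : (h - (m : R)) ^ M * x = 0) :
    wt n M h m * x = x := by
  obtain ⟨a, ha⟩ := pPoly_spec n M m
  have h1 := congrArg (fun p => aeval h p * x) ha
  simp only [map_add, map_mul, map_one, one_mul, add_mul] at h1
  rwa [aeval_lin, mul_assoc, hx, mul_zero, zero_add] at h1

theorem wt_of_notMem (hg : aeval h (gPoly n M) = 0) {m : ℤ}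
    (hm : m ∉ Finset.Icc (-(n : ℤ)) n) : wt n M h m = 0 :=
  aeval_of_dvd hg (gPoly_dvd_of_notMem n M hm)

theorem wt_idem (hg : aeval h (gPoly n M) = 0) (m : ℤ) :
    wt n M h m * wt n M h m = wt n M h m :=
  wt_mul_eq _ m (lin_mul_wt hg m)

theorem wt_orth (hg : aeval h (gPoly n M) = 0) {m m' : ℤ} (hmm : m ≠ m') :
    wt n M h m * wt n M h m' = 0 := by
  by_cases hm : m' ∈ Finset.Icc (-(n : ℤ)) n
  · obtain ⟨q, hq⟩ := lin_dvd_pPoly n M hm hmm.symm
    have h1 : wt n M h m = aeval h q * (h - (m' : R)) ^ M := by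
      rw [wt, hq, mul_comm, map_mul, aeval_lin]
    rw [h1, mul_assoc, lin_mul_wt hg, mul_zero]
  · rw [wt_of_notMem hg hm, mul_zero]

theorem wt_sum (hg : aeval h (gPoly n M) = 0) :
    ∑ m ∈ Finset.Icc (-(n : ℤ)) n, wt n M h m = 1 := by
  have h1 := aeval_of_dvd hg (gPoly_dvd_sum n M)
  rw [map_sub, map_one, map_sum, sub_eq_zero] at h1
  exact h1.symm

theorem lin_pow_mul {y : R} {c : ℤ} (hy : h * y - y * h = c • y) (m : ℤ) (k : ℕ) :
    (h - ((m + c : ℤ) : R)) ^ k * y = y * (h - (m : R)) ^ k := by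
  induction k with
  | zero => simp
  | succ k ih =>
    have h1 : (h - ((m + c : ℤ) : R)) * y = y * (h - (m : R)) := by
      have h2 : h * y = y * h + (c : R) * y := by
        rw [← zsmul_eq_mul, ← hy]; abel
      have h3 : (m : R) * y = y * (m : R) := (Int.cast_commute m y).eq
      rw [sub_mul, h2, mul_sub]
      push_cast
      rw [add_mul, h3]
      abel
    rw [pow_succ, mul_assoc, h1, ← mul_assoc, ih, mul_assoc, ← pow_succ]

/-- Elements of weight `c` shift the weight idempotents. -/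
theorem wt_shift (hg : aeval h (gPoly n M) = 0) {y : R} {c : ℤ}
    (hy : h * y - y * h = c • y) (m : ℤ) :
    y * wt n M h m = wt n M h (m + c) * y := by
  have h1 : ∀ s : ℤ, wt n M h (s + c) * (y * wt n M h s) = y * wt n M h s := by
    intro s
    refine wt_mul_eq _ _ ?_
    rw [← mul_assoc, lin_pow_mul hy, mul_assoc, lin_mul_wt hg, mul_zero]
  have h2 : wt n M h (m + c) * y =
      ∑ s ∈ Finset.Icc (-(n : ℤ)) n, wt n M h (m + c) * (y * wt n M h s) := by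
    rw [← Finset.mul_sum, ← Finset.mul_sum, wt_sum hg, mul_one]
  have h3 : ∀ s : ℤ, s ≠ m → wt n M h (m + c) * (y * wt n M h s) = 0 := by
    intro s hs
    rw [← h1 s, ← mul_assoc, wt_orth hg (by omega), zero_mul]
  by_cases hm : m ∈ Finset.Icc (-(n : ℤ)) n
  · rw [h2, Finset.sum_eq_single_of_mem m hm fun s _ hs => h3 s hs, h1]
  · rw [h2, Finset.sum_eq_zero, wt_of_notMem hg hm, mul_zero]
    intro s hs
    exact h3 s (fun hsm => hm (hsm ▸ hs))

end Ring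

end Pool.Agent.Helper47.CK
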