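import Mathlib

/-!
# Jacobson's lemma for a nilpotent operator `E` with `H = [E, F]`, `[H, E] = 2 E`
-/

set_option autoImplicit false

open Polynomial

namespace Pool.Agent.Helper47.CK

section Module

variable {V : Type*} [AddCommGroup V] [Module ℚ V] {E F H : Module.End ℚ V}

theorem comm_pow (hH : E * F - F * E = H) (hE : H * E - E * H = 2 * E) (k : ℕ) :
    E ^ (k + 1) * F - F * E ^ (k + 1) = ((k + 1 : ℕ) : Module.End ℚ V) * ((H - (k : Module.End ℚ V)) * E ^ k) := by
  induction k with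
  | zero => simp [hH]
  | succ k ih =>
    have h1 : E ^ (k + 1 + 1) * F - F * E ^ (k + 1 + 1) =
        E * (E ^ (k + 1) * F - F * E ^ (k + 1)) + (E * F - F * E) * E ^ (k + 1) := by
      rw [pow_succ' E (k + 1)]
      noncomm_ring
    have h2 : E * H = H * E - 2 * E := by rw [← hE]; abel
    have h3 : ∀ m : ℕ, E * (m : Module.End ℚ V) = (m : Module.End ℚ V) * E :=
      fun m => ((Nat.cast_commute m E).eq).symm
    rw [h1, ih, hH]
    have h4 : E * (((k + 1 : ℕ) : Module.End ℚ V) * ((H - (k : Module.End ℚ V)) * E ^ k)) =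
        ((k + 1 : ℕ) : Module.End ℚ V) * ((H - 2 - (k : Module.End ℚ V)) * E ^ (k + 1)) := by
      rw [← mul_assoc, h3, mul_assoc, ← mul_assoc E, mul_sub, h2, h3, pow_succ' E k]
      noncomm_ring
    rw [h4]
    push_cast
    noncomm_ring

/-- One step of Jacobson's argument. -/
theorem jacobson_step (hH : E * F - F * E = H) (hE : H * E - E * H = 2 * E) (k : ℕ) (x : V)
    (hx : E x = 0) (hk : x ∈ LinearMap.range (E ^ k)) :
    E ((H - (k : Module.End ℚ V)) x) = 0 ∧
      (H - (k : Module.End ℚ V)) x ∈ LinearMap.range (E ^ (k + 1)) := by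
  constructor
  · have h2 : E * (H - (k : Module.End ℚ V)) = (H - 2 - (k : Module.End ℚ V)) * E := by
      have h2 : E * H = H * E - 2 * E := by rw [← hE]; abel
      have h3 : E * (k : Module.End ℚ V) = (k : Module.End ℚ V) * E :=
        ((Nat.cast_commute k E).eq).symm
      rw [mul_sub, h2, h3]
      noncomm_ring
    have := congrArg (fun T : Module.End ℚ V => T x) h2
    simp only [Module.End.mul_apply] at this
    rw [this, hx, map_zero]
  · obtain ⟨y, rfl⟩ := hk
    have h1 := congrArg (fun T : Module.End ℚ V => T y) (comm_pow hH hE k)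
    simp only [LinearMap.sub_apply, Module.End.mul_apply] at h1
    have h2 : (E ^ (k + 1)) y = 0 := by
      rw [pow_succ', Module.End.mul_apply, hx]
    rw [h2, map_zero, sub_zero] at h1
    refine ⟨((k + 1 : ℕ) : ℚ)⁻¹ • F y, ?_⟩
    rw [map_smul, h1]
    have h3 : ∀ z : V, ((k + 1 : ℕ) : Module.End ℚ V) z = ((k + 1 : ℕ) : ℚ) • z := by
      intro z
      rw [Module.End.natCast_apply, Nat.cast_smul_eq_nsmul]
    rw [h3, smul_smul, inv_mul_cancel₀ (by positivity), one_smul]
    rfl

/-- The product `∏_{i ∈ [k, k + j)} (X - i)`. -/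
noncomputable def segPoly (k j : ℕ) : ℚ[X] := ∏ i ∈ Finset.range j, (X - C ((k + i : ℕ) : ℚ))

theorem segPoly_succ (k j : ℕ) :
    segPoly k (j + 1) = (X - C ((k + j : ℕ) : ℚ)) * segPoly k j := by
  rw [segPoly, Finset.prod_range_succ, mul_comm, segPoly]

theorem aeval_X_sub_nat (T : Module.End ℚ V) (m : ℕ) :
    aeval T (X - C (m : ℚ)) = T - (m : Module.End ℚ V) := by
  simp

theorem jacobson_iter (hH : E * F - F * E = H) (hE : H * E - E * H = 2 * E) (k : ℕ) (x : V)
    (hx : E x = 0) (hk : x ∈ LinearMap.range (E ^ k)) (j : ℕ) :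
    E (aeval H (segPoly k j) x) = 0 ∧
      aeval H (segPoly k j) x ∈ LinearMap.range (E ^ (k + j)) := by
  induction j with
  | zero => simpa [segPoly] using ⟨hx, hk⟩
  | succ j ih =>
    rw [segPoly_succ, map_mul, Module.End.mul_apply, aeval_X_sub_nat]
    exact jacobson_step hH hE (k + j) _ ih.1 ih.2

/-- Jacobson's lemma. -/
theorem jacobson (hH : E * F - F * E = H) (hE : H * E - E * H = 2 * E) {n : ℕ}
    (hn : E ^ (n + 1) = 0) (k : ℕ) (hkn : k ≤ n + 1) (x : V)
    (hx : E x = 0) (hk : x ∈ LinearMap.range (E ^ k)) :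
    aeval H (segPoly k (n + 1 - k)) x = 0 := by
  have h := (jacobson_iter hH hE k x hx hk (n + 1 - k)).2
  rw [Nat.add_sub_cancel' hkn, hn] at h
  obtain ⟨y, hy⟩ := h
  rw [← hy]; rfl

/-- The generalised weights of `H` on `ker E ∩ range (E ^ k)` are in `{k, …, n}`. -/
theorem weight_mem (hH : E * F - F * E = H) (hE : H * E - E * H = 2 * E) {n : ℕ}
    (hn : E ^ (n + 1) = 0) (k : ℕ) (hkn : k ≤ n + 1) (x : V)
    (hx : E x = 0) (hk : x ∈ LinearMap.range (E ^ k)) (hx0 : x ≠ 0) (μ : ℚ) (M : ℕ)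
    (hμ : aeval H ((X - C μ) ^ M) x = 0) : ∃ i : ℕ, k ≤ i ∧ i ≤ n ∧ μ = i := by
  by_contra hcon
  push Not at hcon
  have hcop : IsCoprime ((X - C μ) ^ M) (segPoly k (n + 1 - k)) := by
    rw [segPoly]
    refine IsCoprime.pow_left (IsCoprime.prod_right fun i hi => ?_)
    refine isCoprime_X_sub_C_of_isUnit_sub ?_
    rw [isUnit_iff_ne_zero, sub_ne_zero]
    have hi' := Finset.mem_range.1 hi
    exact hcon (k + i) (by omega) (by omega)
  obtain ⟨a, b, hab⟩ := hcop
  have h1 : aeval H (a * (X - C μ) ^ M + b * segPoly k (n + 1 - k)) x = x := by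
    rw [hab]; simp
  rw [map_add, LinearMap.add_apply, map_mul, map_mul, Module.End.mul_apply, Module.End.mul_apply,
    hμ, jacobson hH hE hn k hkn x hx hk, map_zero, map_zero, add_zero] at h1
  exact hx0 h1.symm

/-- `E p(H) = p(H - 2) E`. -/
theorem E_mul_aeval (hE : H * E - E * H = 2 * E) (p : ℚ[X]) :
    E * aeval H p = aeval (H - 2) p * E := by
  have h2 : E * H = (H - 2) * E := by
    rw [sub_mul, ← hE]; abel
  induction p using Polynomial.induction_on' with
  | add p q hp hq => rw [map_add, map_add, mul_add, add_mul, hp, hq]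
  | monomial m a =>
    rw [aeval_monomial, aeval_monomial, ← mul_assoc, (Algebra.commutes a E).symm, mul_assoc,
      mul_assoc]
    congr 1
    induction m with
    | zero => simp
    | succ m ih => rw [pow_succ, pow_succ, ← mul_assoc, ih, mul_assoc, h2, mul_assoc]

end Module

end Pool.Agent.Helper47.CK
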