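import Pool.Agent.Helper47.CK.MainA

/-!
# Products
-/

set_option autoImplicit false

open CategoryTheory MonoidalCategory

namespace Pool.Agent.Helper47.CK

universe v u w

open CorrTheory

variable {C : Type u} [Category.{v} C] [Preadditive C] [Linear ℚ C] [CorrTheory.{v, u, w} C]
  [MonoidalCategory C] [MonoidalPreadditive C]

/-- The exterior product of correspondences is additive in the degrees. -/
class TensorTheory (C : Type u) [Category.{v} C] [Preadditive C] [Linear ℚ C]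
    [CorrTheory.{v, u, w} C] [MonoidalCategory C] [MonoidalPreadditive C] : Prop where
  tensor_mem : ∀ {X X' Y Y' : C} {a b : ℤ} {f : X ⟶ X'} {g : Y ⟶ Y'},
    f ∈ deg X X' a → g ∈ deg Y Y' b → f ⊗ₘ g ∈ deg (X ⊗ Y) (X' ⊗ Y') (a + b)

open TensorTheory

/-- Ring homomorphism `a ↦ a ⊗ 𝟙`. -/
def tl (X Y : C) : End X →+* End (X ⊗ Y) where
  toFun a := (show X ⟶ X from a) ⊗ₘ 𝟙 Y
  map_one' := id_tensorHom_id X Y
  map_mul' a b := by
    change (((show X ⟶ X from b) ≫ (show X ⟶ X from a)) ⊗ₘ 𝟙 Y) =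
      ((show X ⟶ X from b) ⊗ₘ 𝟙 Y) ≫ ((show X ⟶ X from a) ⊗ₘ 𝟙 Y)
    rw [tensorHom_comp_tensorHom, Category.comp_id]
  map_zero' := MonoidalPreadditive.zero_tensor _
  map_add' a b := MonoidalPreadditive.add_tensor _ _ _

/-- Ring homomorphism `b ↦ 𝟙 ⊗ b`. -/
def tr (X Y : C) : End Y →+* End (X ⊗ Y) where
  toFun a := 𝟙 X ⊗ₘ (show Y ⟶ Y from a)
  map_one' := id_tensorHom_id X Y
  map_mul' a b := by
    change (𝟙 X ⊗ₘ ((show Y ⟶ Y from b) ≫ (show Y ⟶ Y from a))) =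
      (𝟙 X ⊗ₘ (show Y ⟶ Y from b)) ≫ (𝟙 X ⊗ₘ (show Y ⟶ Y from a))
    rw [tensorHom_comp_tensorHom, Category.comp_id]
  map_zero' := MonoidalPreadditive.tensor_zero _
  map_add' a b := MonoidalPreadditive.tensor_add _ _ _

theorem tl_tr_comm {X Y : C} (a : End X) (b : End Y) : Commute (tl X Y a) (tr X Y b) := by
  change (𝟙 X ⊗ₘ (show Y ⟶ Y from b)) ≫ ((show X ⟶ X from a) ⊗ₘ 𝟙 Y) =
    ((show X ⟶ X from a) ⊗ₘ 𝟙 Y) ≫ (𝟙 X ⊗ₘ (show Y ⟶ Y from b))
  rw [tensorHom_comp_tensorHom, tensorHom_comp_tensorHom, Category.comp_id,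
    Category.id_comp, Category.id_comp, Category.comp_id]

/-- (2) Products. -/
theorem linLef_tensor [TensorTheory.{v, u, w} C] {X Y : C} {e : End X} {e' : End Y} (h : LinLef e) (h' : LinLef e') :
    LinLef ((e ⊗ₘ 𝟙 Y) + (𝟙 X ⊗ₘ e')) := by
  rw [linLef_iff] at h h'
  obtain ⟨f, hf, hfe⟩ := h
  obtain ⟨f', hf', hfe'⟩ := h'
  refine (linLef_iff (X := X ⊗ Y) _).2 ⟨tl X Y f + tr X Y f', Submodule.add_mem _ ?_ ?_,
    linEq_add (e₁ := tl X Y e) (e₂ := tr X Y e') (tl_tr_comm _ _) (tl_tr_comm _ _)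
      (tl_tr_comm _ _) (hfe.map _) (hfe'.map _)⟩
  · have := tensor_mem hf (id_mem Y)
    rwa [add_zero] at this
  · have := tensor_mem (id_mem X) hf'
    rwa [zero_add] at this

end Pool.Agent.Helper47.CK
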