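import Pool.Agent.Helper47.CK.MainF
import Pool.Agent.Helper47.CK.MainT

/-!
# A class of polarised varieties satisfying the linear Lefschetz equation
-/

set_option autoImplicit false

open CategoryTheory MonoidalCategory

namespace Pool.Agent.Helper47.CK

universe v u w

open CorrTheory

variable {C : Type u} [Category.{v} C] [Preadditive C] [Linear ℚ C] [CorrTheory.{v, u, w} C]
  [MonoidalCategory C] [MonoidalPreadditive C]

/-- The class of polarised varieties `(P, e)`, `e = Δ_* l`, generated by

* `lin`: those with a correspondence `f` of degree `-1` such that `[e, [e, f]] = -2 e`;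
* `dec`: those for which `Δ_* l` is a multiple of `∑ l^i × l^{d + 1 - i}` (here `σ` is a multiple
  of the fundamental class of `P × P`);
* `hyp`: hypersurfaces `V` of degree `m` in projective space (`IsProj`), with `e' = Δ_* h`;
* `smul`: multiples of the polarisation;
* `prod`: products `P × Q` with the polarisation `l ⊠ l'`;
* `retract`: varieties `X` with correspondences `u : X → Y`, `v : Y → X` with `v ∘ u = 1` which are
  compatible with the polarisations, such as `u = g^*` and `v = g_* / deg g` for a surjective
  morphism `g : Y → X` which is generically finite, `g^* l_X = l_Y`. -/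
inductive LefClass : (P : C) → End P → Prop
  | lin {P : C} {e : End P} (he : e ∈ deg P P 1) (hL : LinLef e) : LefClass P e
  | dec {P : C} {e σ : End P} (he : e ∈ deg P P 1) (hσ : σ ∈ deg P P (-(dim P : ℤ)))
      (h : e = ∑ i ∈ Finset.range (dim P), e ^ (i + 1) * σ * e ^ (dim P - i)) : LefClass P e
  | hyp {P V : C} {e : End P} {e' : End V} {up : P ⟶ V} {down : V ⟶ P} {m : ℚ}
      (hP : IsProj P e) (hM : IsMap P V e e' up down m 1)
      (hself : down ≫ up = m • (e' : V ⟶ V)) : LefClass V e'
  | smul {P : C} {e : End P} {c : ℚ} (h : LefClass P e) (hc : c ≠ 0) : LefClass P (c • e)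
  | prod {P Q : C} {e : End P} {e' : End Q} (h : LefClass P e) (h' : LefClass Q e') :
      LefClass (P ⊗ Q) ((e ⊗ₘ 𝟙 Q) + (𝟙 P ⊗ₘ e'))
  | retract {X Y : C} {e : End X} {e' : End Y} {r : ℤ} {u : X ⟶ Y} {v : Y ⟶ X}
      (h : LefClass Y e') (hu : u ∈ deg X Y r) (hv : v ∈ deg Y X (-r))
      (huv : u ≫ v = 𝟙 X) (h1 : (e : X ⟶ X) ≫ u = u ≫ e') (h2 : v ≫ e = (e' : Y ⟶ Y) ≫ v) :
      LefClass X e

theorem LefClass.spec [TensorTheory.{v, u, w} C] {P : C} {e : End P} (h : LefClass P e) :
    LinLef e := by
  induction h with
  | lin he hL => exact hL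
  | dec he hσ h => exact linLef_decomp he hσ h
  | @hyp P V e e' up down m hP hM hself =>
    have he' : e' ∈ gr V 1 := by
      have h1 := comp_mem hM.down_mem hM.up_mem
      rw [hself] at h1
      have h2 := (gr V _).smul_mem m⁻¹ h1
      rw [smul_smul, inv_mul_cancel₀ hM.ne_zero, one_smul] at h2
      exact h2
    exact linLef_hypersurface hP hM hM.ne_zero he' hself
  | smul h hc ih => exact linLef_smul hc ih
  | prod h h' ih ih' => exact linLef_tensor ih ih'
  | retract h hu hv huv h1 h2 ih => exact linLef_retract hu hv huv h1 h2 ih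

end Pool.Agent.Helper47.CK
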