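import Pool.Agent.Helper47.CK.RingPart

/-!
# Motivic hard Lefschetz inverses
-/

set_option autoImplicit false

open Polynomial

namespace Pool.Agent.Helper47.CK

section Ring

variable {R : Type*} [Ring R] [Algebra ℚ R] {e f h : R} {n : ℕ}

theorem gPoly_monic (n M : ℕ) : (gPoly n M).Monic :=
  monic_prod_of_monic _ _ fun _ _ => (monic_X_sub_C _).pow _

theorem casPoly_monic (n : ℕ) : (casPoly n).Monic :=
  monic_prod_of_monic _ _ fun _ _ => monic_X_sub_C _

theorem int_h (hH : e * f - f * e = h) (hE : h * e - e * h = 2 * e)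
    (hn : e ^ (n + 1) = 0) : IsIntegral ℚ h :=
  ⟨gPoly n (n + 1), gPoly_monic _ _, gPoly_ring hH hE hn⟩

theorem int_cas (hH : e * f - f * e = h) (hE : h * e - e * h = 2 * e)
    (hn : e ^ (n + 1) = 0) : IsIntegral ℚ (cas e f h) :=
  ⟨casPoly n ^ (n + 1), (casPoly_monic _).pow _, cas_ring hH hE hn⟩

open scoped IsMulCommutative in
theorem int_adjoin {a b : R} (hab : a * b = b * a) (ha : IsIntegral ℚ a) (hb : IsIntegral ℚ b)
    (x : R) (hx : x ∈ Algebra.adjoin ℚ {a, b}) : IsIntegral ℚ x := by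
  have hcomm : ∀ x ∈ ({a, b} : Set R), ∀ y ∈ ({a, b} : Set R), x * y = y * x := by
    rintro x (rfl | rfl) y (rfl | rfl)
    · rfl
    · exact hab
    · exact hab.symm
    · rfl
  have := Algebra.isMulCommutative_adjoin ℚ hcomm
  have hinj : Function.Injective (Algebra.adjoin ℚ ({a, b} : Set R)).val :=
    Subtype.val_injective
  have key : IsIntegral ℚ (⟨x, hx⟩ : Algebra.adjoin ℚ ({a, b} : Set R)) := by
    induction hx using Algebra.adjoin_induction with
    | mem x hx =>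
      refine (isIntegral_algHom_iff _ hinj).1 ?_
      rcases hx with rfl | rfl
      · exact ha
      · exact hb
    | algebraMap r => exact isIntegral_algebraMap
    | add x y hx hy ihx ihy => exact ihx.add ihy
    | mul x y hx hy ihx ihy => exact ihx.mul ihy
  exact key.map (Algebra.adjoin ℚ ({a, b} : Set R)).val

theorem smul_four (x : R) (y : R) (h : 4 * x = y) : x = (4 : ℚ)⁻¹ • y := by
  rw [← h, ← map_ofNat (algebraMap ℚ R) 4, ← Algebra.smul_def, smul_smul]
  norm_num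

theorem t_succ (hE : h * e - e * h = 2 * e) (hH : e * f - f * e = h) (k : ℕ) :
    f ^ (k + 1) * e ^ (k + 1) = (4 : ℚ)⁻¹ •
      (f ^ k * e ^ k * (cas e f h - (h + (2 * k : ℤ)) ^ 2 - 2 * (h + (2 * k : ℤ)))) := by
  apply smul_four
  have hy : h * e - e * h = (2 : ℤ) • e := by rw [hE, zsmul_eq_mul]; push_cast; rfl
  have h1 : h * e ^ k = e ^ k * (h + (2 * k : ℤ)) := by
    have := wt_pow hy k
    rw [sub_eq_iff_eq_add, zsmul_eq_mul] at this
    rw [this, mul_add, (Int.cast_commute (2 * k : ℤ) (e ^ k)).eq.symm, mul_comm (k : ℤ) 2]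
    abel
  have h2 : h ^ 2 * e ^ k = e ^ k * (h + (2 * k : ℤ)) ^ 2 := by
    rw [pow_two, mul_assoc, h1, ← mul_assoc, h1, mul_assoc, ← pow_two]
  have h3 : cas e f h * e ^ k = e ^ k * cas e f h := ((cas_comm hH hE).pow_left k).eq.symm
  have h4 : 4 * (f * e) = cas e f h - h ^ 2 - 2 * h := by rw [cas]; abel
  have h5 : (4 : R) * (f ^ (k + 1) * e ^ (k + 1)) = f ^ k * (4 * (f * e)) * e ^ k := by
    rw [pow_succ f k, pow_succ' e k]
    have : (4 : R) * (f ^ k * f * (e * e ^ k)) = (4 * f ^ k) * (f * (e * e ^ k)) := by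
      noncomm_ring
    rw [this, (Nat.cast_ofNat (R := R) (n := 4)).symm, (Nat.cast_commute 4 (f ^ k)).eq]
    push_cast
    simp only [mul_assoc]
  rw [h5, h4, mul_assoc, mul_assoc]
  congr 1
  rw [sub_mul, sub_mul, h3, h2, mul_assoc 2 h, h1, mul_sub, mul_sub]
  congr 1
  rw [← mul_assoc, ← mul_assoc, (Nat.cast_ofNat (R := R) (n := 2)).symm,
    (Nat.cast_commute 2 (e ^ k)).eq]

theorem t_mem (hH : e * f - f * e = h) (hE : h * e - e * h = 2 * e) (k : ℕ) :
    f ^ k * e ^ k ∈ Algebra.adjoin ℚ ({h, cas e f h} : Set R) := by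
  induction k with
  | zero => simp
  | succ k ih =>
    rw [t_succ hE hH]
    have hh : h ∈ Algebra.adjoin ℚ ({h, cas e f h} : Set R) :=
      Algebra.subset_adjoin (Set.mem_insert _ _)
    have hc : cas e f h ∈ Algebra.adjoin ℚ ({h, cas e f h} : Set R) :=
      Algebra.subset_adjoin (Set.mem_insert_of_mem _ rfl)
    have hh2 : h + ((2 * k : ℤ) : R) ∈ Algebra.adjoin ℚ ({h, cas e f h} : Set R) :=
      Subalgebra.add_mem _ hh (Subalgebra.intCast_mem _ _)
    refine Subalgebra.smul_mem _ (Subalgebra.mul_mem _ ih ?_) _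
    refine Subalgebra.sub_mem _ (Subalgebra.sub_mem _ hc (Subalgebra.pow_mem _ hh2 2)) ?_
    exact Subalgebra.mul_mem _ (ofNat_mem _ 2) hh2

theorem cas_comm_h (hE : h * e - e * h = 2 * e) (hF : h * f - f * h = -(2 * f)) :
    h * cas e f h = cas e f h * h := by
  have h1 : h * f = f * h - 2 * f := by rw [sub_eq_iff_eq_add.1 hF]; abel
  have h2 : h * e = e * h + 2 * e := by rw [← hE]; abel
  have h3 : h * (f * e) = f * e * h := by
    rw [← mul_assoc, h1, sub_mul, mul_assoc, h2]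
    noncomm_ring
  rw [cas, mul_add, mul_add, add_mul, add_mul]
  have h4 : h * (4 * (f * e)) = 4 * (h * (f * e)) := by noncomm_ring
  rw [h4, h3]
  noncomm_ring

theorem int_t (hH : e * f - f * e = h) (hE : h * e - e * h = 2 * e)
    (hF : h * f - f * h = -(2 * f)) (hn : e ^ (n + 1) = 0) (k : ℕ) :
    IsIntegral ℚ (f ^ k * e ^ k) :=
  int_adjoin (cas_comm_h hE hF) (int_h hH hE hn) (int_cas hH hE hn) _ (t_mem hH hE k)

/-- Products with `e ^ k`, `f ^ k` shift the weights. -/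
theorem wt_e_pow (hE : h * e - e * h = 2 * e) (k : ℕ) :
    h * e ^ k - e ^ k * h = (2 * k : ℤ) • e ^ k := by
  have hy : h * e - e * h = (2 : ℤ) • e := by rw [hE, zsmul_eq_mul]; push_cast; rfl
  rw [wt_pow hy, mul_comm]

theorem wt_f_pow (hF : h * f - f * h = -(2 * f)) (k : ℕ) :
    h * f ^ k - f ^ k * h = (-(2 * k) : ℤ) • f ^ k := by
  have hy : h * f - f * h = (-2 : ℤ) • f := by rw [hF, zsmul_eq_mul]; push_cast; rw [neg_mul]
  rw [wt_pow hy]
  congr 1
  ring

theorem comm_t (hE : h * e - e * h = 2 * e) (hF : h * f - f * h = -(2 * f)) (k : ℕ) :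
    Commute h (f ^ k * e ^ k) := by
  have h1 := wt_e_pow hE k
  have h2 := wt_f_pow hF k
  rw [sub_eq_iff_eq_add] at h1 h2
  rw [commute_iff_eq, ← mul_assoc, h2, add_mul, mul_assoc, h1, mul_add, neg_smul,
    neg_mul, smul_mul_assoc, mul_smul_comm, mul_assoc]
  abel

/-- Injectivity of `f ^ k` on elements of generalised weight `k`. -/
theorem inj_f (hH : e * f - f * e = h) (hF : h * f - f * h = -(2 * f))
    (hn : f ^ (n + 1) = 0) (k M : ℕ) (a : R) (ha : (h - ((k : ℤ) : R)) ^ M * a = 0)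
    (hk : f ^ k * a = 0) : a = 0 := by
  refine inj_e (e := f) (f := e) (h := -h) (n := n) (by rw [← hH]; abel)
    (by rw [neg_mul, mul_neg, ← neg_sub', hF, neg_neg]) hn k M a ?_ hk
  have h1 : (-h - ((-k : ℤ) : R)) = -(h - ((k : ℤ) : R)) := by push_cast; abel
  rw [h1, neg_pow, mul_assoc, ha, mul_zero]

theorem inj_t (hH : e * f - f * e = h) (hE : h * e - e * h = 2 * e)
    (hF : h * f - f * h = -(2 * f)) (hn : e ^ (n + 1) = 0) (hn' : f ^ (n + 1) = 0)
    (k M : ℕ) (a : R) (ha : (h - ((-k : ℤ) : R)) ^ M * a = 0)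
    (hk : f ^ k * e ^ k * a = 0) : a = 0 := by
  refine inj_e hH hE hn k M a ha ?_
  refine inj_f hH hF hn' k M _ ?_ (by rwa [← mul_assoc])
  have h1 := lin_pow_mul (wt_e_pow hE k) (-k) M
  rw [show (-k + 2 * k : ℤ) = k by ring] at h1
  rw [← mul_assoc, h1, mul_assoc, ha, mul_zero]

theorem inj_t_pow (hH : e * f - f * e = h) (hE : h * e - e * h = 2 * e)
    (hF : h * f - f * h = -(2 * f)) (hn : e ^ (n + 1) = 0) (hn' : f ^ (n + 1) = 0)
    (k M r : ℕ) (a : R) (ha : (h - ((-k : ℤ) : R)) ^ M * a = 0)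
    (hk : (f ^ k * e ^ k) ^ r * a = 0) : a = 0 := by
  induction r with
  | zero => simpa using hk
  | succ r ih =>
    apply ih
    refine inj_t hH hE hF hn hn' k M _ ?_ (by rwa [← mul_assoc, ← pow_succ'])
    have hc : Commute ((h - ((-k : ℤ) : R)) ^ M) ((f ^ k * e ^ k) ^ r) := by
      refine Commute.pow_pow (Commute.sub_left (comm_t hE hF k) (Int.cast_commute _ _)) _ _
    rw [← mul_assoc, hc.eq, mul_assoc, ha, mul_zero]

/-- The inverse of `f ^ k * e ^ k` on the weight `-k` part. -/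
theorem exists_inv (hH : e * f - f * e = h) (hE : h * e - e * h = 2 * e)
    (hF : h * f - f * h = -(2 * f)) (hn : e ^ (n + 1) = 0) (hn' : f ^ (n + 1) = 0)
    (k M : ℕ) (a : R) (ha : (h - ((-k : ℤ) : R)) ^ M * a = 0) :
    ∃ q : ℚ[X], aeval (f ^ k * e ^ k) q * (f ^ k * e ^ k) * a = a := by
  obtain ⟨p, hpm, hp0⟩ := int_t hH hE hF hn k
  have hp0' : aeval (f ^ k * e ^ k) p = 0 := hp0
  obtain ⟨q, hpq, hq⟩ := exists_eq_pow_rootMultiplicity_mul_and_not_dvd p hpm.ne_zero 0
  rw [dvd_iff_isRoot, IsRoot, ← coeff_zero_eq_eval_zero] at hq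
  set t := f ^ k * e ^ k with ht
  rw [hpq, map_mul, map_pow, C_0, sub_zero, aeval_X] at hp0'
  have hqa : aeval t q * a = 0 := by
    refine inj_t_pow hH hE hF hn hn' k M (p.rootMultiplicity 0) _ ?_ ?_
    · have hc : Commute ((h - ((-k : ℤ) : R)) ^ M) (aeval t q) := by
        refine commute_aeval (Commute.pow_left ?_ _) q
        exact Commute.sub_left (comm_t hE hF k) (Int.cast_commute _ _)
      rw [← mul_assoc, hc.eq, mul_assoc, ha, mul_zero]
    · rw [← ht, ← mul_assoc, hp0', zero_mul]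
  have h1 : aeval t (divX q) * t * a + q.coeff 0 • a = 0 := by
    have h2 := congrArg (fun p => aeval t p * a) (divX_mul_X_add q)
    simp only [map_add, map_mul, aeval_X, aeval_C, add_mul] at h2
    rw [hqa, ← Algebra.smul_def] at h2
    exact h2
  refine ⟨C (-(q.coeff 0)⁻¹) * divX q, ?_⟩
  rw [map_mul, aeval_C, ← Algebra.smul_def, smul_mul_assoc, smul_mul_assoc,
    eq_neg_of_add_eq_zero_left h1, smul_neg, smul_smul, neg_mul, inv_mul_cancel₀ hq, neg_smul,
    one_smul, neg_neg]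

/-- Motivic hard Lefschetz inverses. -/
theorem exists_lam (hH : e * f - f * e = h) (hE : h * e - e * h = 2 * e)
    (hF : h * f - f * h = -(2 * f)) (hn : e ^ (n + 1) = 0) (hn' : f ^ (n + 1) = 0) (k : ℕ) :
    ∃ u ∈ Algebra.adjoin ℚ {f ^ k * e ^ k},
      u * f ^ k * e ^ k * wt n (n + 1) h (-k) = wt n (n + 1) h (-k) ∧
      e ^ k * (u * f ^ k) * wt n (n + 1) h k = wt n (n + 1) h k := by
  have hg := gPoly_ring hH hE hn
  set t := f ^ k * e ^ k with ht
  have htw : Commute t (wt n (n + 1) h (-k)) :=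
    commute_aeval (comm_t hE hF k).symm _
  obtain ⟨q, hq⟩ := exists_inv hH hE hF hn hn' k (n + 1) _ (lin_mul_wt hg (-k))
  rw [← ht] at hq
  have hut : Commute (aeval t q) t := (commute_aeval (Commute.refl t) q).symm
  refine ⟨aeval t q, aeval_mem_adjoin_singleton ℚ t, by rw [mul_assoc (aeval t q), ← ht, hq], ?_⟩
  rw [eq_comm, ← sub_eq_zero]
  have hfw := wt_shift hg (wt_f_pow hF k) k
  have hew := wt_shift hg (wt_e_pow hE k) (-k)
  rw [show (k + -(2 * k) : ℤ) = -k by ring] at hfw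
  rw [show (-k + 2 * k : ℤ) = k by ring] at hew
  refine inj_f hH hF hn' k (n + 1) _ ?_ ?_
  · have huw : aeval t q * wt n (n + 1) h (-k) = wt n (n + 1) h (-k) * aeval t q :=
      (commute_aeval htw.symm q).symm.eq
    have h2 : wt n (n + 1) h k - e ^ k * (aeval t q * f ^ k) * wt n (n + 1) h k =
        wt n (n + 1) h k * (1 - e ^ k * (aeval t q * f ^ k)) := by
      rw [mul_sub, mul_one]
      congr 1
      calc e ^ k * (aeval t q * f ^ k) * wt n (n + 1) h k
          = e ^ k * (aeval t q * (f ^ k * wt n (n + 1) h k)) := by simp only [mul_assoc]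
        _ = e ^ k * ((aeval t q * wt n (n + 1) h (-k)) * f ^ k) := by
            rw [hfw]; simp only [mul_assoc]
        _ = (e ^ k * wt n (n + 1) h (-k)) * (aeval t q * f ^ k) := by
            rw [huw]; simp only [mul_assoc]
        _ = wt n (n + 1) h k * (e ^ k * (aeval t q * f ^ k)) := by
            rw [hew]; simp only [mul_assoc]
    rw [h2, ← mul_assoc, lin_mul_wt hg, zero_mul]
  · rw [mul_sub, sub_eq_zero]
    calc f ^ k * wt n (n + 1) h k = wt n (n + 1) h (-k) * f ^ k := hfw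
      _ = aeval t q * t * wt n (n + 1) h (-k) * f ^ k := by rw [hq]
      _ = t * aeval t q * (wt n (n + 1) h (-k) * f ^ k) := by
          rw [hut.eq]; simp only [mul_assoc]
      _ = f ^ k * (e ^ k * (aeval t q * f ^ k) * wt n (n + 1) h k) := by
          rw [← hfw, ht]; simp only [mul_assoc]

end Ring

end Pool.Agent.Helper47.CK
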