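import Pool.Agent.Helper47.CK.Theory

/-!
# The linear Lefschetz equation: Chow-Kuenneth decomposition, products, images, examples
-/

set_option autoImplicit false

open CategoryTheory

namespace Pool.Agent.Helper47.CK

universe v u w

open CorrTheory

variable {C : Type u} [Category.{v} C] [Preadditive C] [Linear ℚ C] [CorrTheory.{v, u, w} C]

/-- The family `π⁰, …, π^{2d}`, extended by zero to all integers. -/
def ext {X : C} (π : Fin (2 * dim X + 1) → (X ⟶ X)) (j : ℤ) : X ⟶ X :=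
  if h : 0 ≤ j ∧ j ≤ 2 * dim X then π ⟨j.toNat, by omega⟩ else 0

/-- The motivic hard Lefschetz theorem for the Lefschetz operator `e` and the family `π`: the
correspondence `e` maps the `j`-th component to the `(j+2)`-nd one, and for `k ≤ d` the
correspondence `e^k` is an isomorphism from the `(d-k)`-th to the `(d+k)`-th component. -/
def MotivicLefschetz {X : C} (e : End X) (π : Fin (2 * dim X + 1) → (X ⟶ X)) : Prop :=
  (∀ j : ℤ, ext π j ≫ e = e ≫ ext π (j + 2)) ∧
  ∀ k : ℕ, k ≤ dim X → ∃ l ∈ deg X X (-k),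
    ext π (dim X - k) ≫ (e ^ k : End X) ≫ l ≫ ext π (dim X - k) = ext π (dim X - k) ∧
    ext π (dim X + k) ≫ l ≫ (e ^ k : End X) ≫ ext π (dim X + k) = ext π (dim X + k)

theorem ck_of_data {X : C} {e : End X} (he : IsLef e) (D : LefData (gr X) e (dim X)) :
    IsCK X (fun i => D.w ((i : ℕ) - (dim X : ℤ))) ∧
      MotivicLefschetz e (fun i => D.w ((i : ℕ) - (dim X : ℤ))) := by
  have hext : ∀ j : ℤ, ext (X := X) (fun i => D.w ((i : ℕ) - (dim X : ℤ))) j = D.w (j - dim X) := by
    intro j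
    rw [ext]
    split_ifs with h
    · simp only [Int.toNat_of_nonneg h.1]
    · exact (D.w_out _ fun h2 => h (by
        have := Finset.mem_Icc.1 h2
        constructor <;> omega)).symm
  refine ⟨isCK_of_int (fun i => D.w (i - dim X)) (fun i => D.w_deg _) (fun i => D.w_idem _)
    (fun i j hij => D.w_orth _ _ (by omega)) ?_ ?_ ?_, ?_, ?_⟩
  · refine Eq.trans ?_ D.w_sum
    refine Finset.sum_bij (fun i _ => i - (dim X : ℤ)) ?_ ?_ ?_ ?_
    · intro i hi
      have := Finset.mem_Icc.1 hi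
      exact Finset.mem_Icc.2 ⟨by omega, by omega⟩
    · intro i _ j _ h
      exact sub_left_injective h
    · intro b hb
      have := Finset.mem_Icc.1 hb
      exact ⟨b + dim X, Finset.mem_Icc.2 ⟨by omega, by omega⟩, by omega⟩
    · intro i _; rfl
  · intro i x hx
    exact (grAct he).w_id (gr_one X) (gr_mul X) he.mem D (i - dim X) i (by omega) x hx
  · intro i j hij x hx
    exact (grAct he).w_zero (gr_one X) (gr_mul X) he.mem D (i - dim X) j (by omega) x hx
  · intro j
    rw [hext, hext, show (j + 2 - (dim X : ℤ)) = j - dim X + 2 by ring]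
    exact D.e_w (j - dim X)
  · intro k hk
    rw [hext, hext, show ((dim X : ℤ) - k - dim X) = -k by ring,
      show ((dim X : ℤ) + k - dim X) = k by ring]
    refine ⟨D.lam k, D.lam_deg k, ?_, ?_⟩
    · have h1 := D.lam_e k
      have h2 := D.w_idem (-k)
      have h3 : D.w (-k) * (D.lam k * e ^ k * D.w (-k)) = D.w (-k) := by rw [h1, h2]
      simpa [End.mul_def, Category.assoc] using h3
    · have h1 := D.e_lam k
      have h2 := D.w_idem k
      have h3 : D.w k * (e ^ k * D.lam k * D.w k) = D.w k := by rw [h1, h2]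
      simpa [End.mul_def, Category.assoc] using h3

/-- (1) -/
theorem ck_of_linLef {X : C} {e : End X} (he : IsLef e) (hL : LinLef e) :
    ∃ π, IsCK X π ∧ MotivicLefschetz e π := by
  obtain ⟨D⟩ := data_of_linLef he.mem hL
  exact ⟨_, ck_of_data he D⟩

section RingLemmas

variable {R : Type*} [Ring R]

/-- The linear Lefschetz equation in a ring. -/
def LinEq (e f : R) : Prop := e * e * f - 2 * (e * f * e) + f * e * e = -(2 * e)

theorem linEq_iff (e f : R) :
    LinEq e f ↔ e * (e * f - f * e) - (e * f - f * e) * e = -(2 * e) := by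
  have : e * (e * f - f * e) - (e * f - f * e) * e = e * e * f - 2 * (e * f * e) + f * e * e := by
    noncomm_ring
  rw [this, LinEq]

theorem linEq_add {e₁ f₁ e₂ f₂ : R} (c1 : Commute e₁ e₂) (c2 : Commute e₁ f₂)
    (c3 : Commute f₁ e₂) (h₁ : LinEq e₁ f₁) (h₂ : LinEq e₂ f₂) :
    LinEq (e₁ + e₂) (f₁ + f₂) := by
  rw [linEq_iff] at h₁ h₂ ⊢
  have k1 : (e₁ + e₂) * (f₁ + f₂) - (f₁ + f₂) * (e₁ + e₂) =
      (e₁ * f₁ - f₁ * e₁) + (e₂ * f₂ - f₂ * e₂) := by
    rw [mul_add, add_mul, add_mul, mul_add, add_mul, add_mul, c2.eq, c3.eq]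
    abel
  have k2 : Commute e₁ (e₂ * f₂ - f₂ * e₂) :=
    (c1.mul_right c2).sub_right (c2.mul_right c1)
  have k3 : Commute e₂ (e₁ * f₁ - f₁ * e₁) :=
    (c1.symm.mul_right c3.symm).sub_right (c3.symm.mul_right c1.symm)
  rw [k1]
  generalize e₁ * f₁ - f₁ * e₁ = A at *
  generalize e₂ * f₂ - f₂ * e₂ = B at *
  have k4 : (e₁ + e₂) * (A + B) - (A + B) * (e₁ + e₂) =
      (e₁ * A - A * e₁) + (e₂ * B - B * e₂) + (e₁ * B - B * e₁) + (e₂ * A - A * e₂) := by
    noncomm_ring
  rw [k4, k2.eq, k3.eq, h₁, h₂, sub_self, sub_self, mul_add]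
  abel

end RingLemmas

theorem linLef_iff {X : C} (e : End X) : LinLef e ↔ ∃ f ∈ gr X (-1), LinEq (R := End X) e f := by
  have h1 : ∀ x y : End X, x * y = y ≫ x := fun _ _ => rfl
  have h2 : ∀ x : End X, (2 : End X) * x = (2 : ℤ) • x := by
    intro x; rw [two_mul, two_smul]
  have key : ∀ f : End X, e * e * f - 2 * (e * f * e) + f * e * e =
      e ≫ e ≫ f - (2 : ℤ) • (e ≫ f ≫ e) + f ≫ e ≫ e := by
    intro f
    rw [h2]
    simp only [h1]
    have h3 : f ≫ e ≫ e - (2 : ℤ) • (e ≫ f ≫ e) + (e ≫ e ≫ f) =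
      e ≫ e ≫ f - (2 : ℤ) • (e ≫ f ≫ e) + f ≫ e ≫ e := by abel
    rw [← h3]
  constructor
  · rintro ⟨f, hf, h⟩
    refine ⟨f, hf, ?_⟩
    rw [LinEq, key, h, h2]
  · rintro ⟨f, hf, h⟩
    refine ⟨f, hf, ?_⟩
    rw [LinEq, key, h2] at h
    exact h

theorem LinEq.map {R S : Type*} [Ring R] [Ring S] (φ : R →+* S) {e f : R} (h : LinEq e f) :
    LinEq (φ e) (φ f) := by
  have := congrArg φ h
  simpa [LinEq, map_ofNat] using this

end Pool.Agent.Helper47.CK
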