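import Pool.Agent.Helper47.CK.MainA

/-!
# Retracts and decomposable Lefschetz operators
-/

set_option autoImplicit false

open CategoryTheory

namespace Pool.Agent.Helper47.CK

universe v u w

open CorrTheory

section RingLemmas

theorem sum_gamma {M : Type*} [AddCommGroup M] (s : ℕ → M) (c : ℤ) (d : ℕ) :
    ∑ j ∈ Finset.range d, (((j : ℤ) + 1) * (c - j)) • (s (j + 2) - (2 : ℤ) • s (j + 1) + s j) =
      c • s 0 - (2 : ℤ) • (∑ i ∈ Finset.range d, s (i + 1)) - (((d : ℤ) + 1) * (c - d)) • s d +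
        ((d : ℤ) * (c - d + 1)) • s (d + 1) := by
  induction d with
  | zero => simp
  | succ d ih =>
    rw [Finset.sum_range_succ, ih, Finset.sum_range_succ]
    push_cast
    module

variable {R : Type*} [Ring R]

theorem linEq_decomp {e σ : R} {d : ℕ} (he : e ^ (d + 1) = 0)
    (hσ : e = ∑ i ∈ Finset.range d, e ^ (i + 1) * σ * e ^ (d - i)) :
    LinEq e (∑ j ∈ Finset.range d, (((j : ℤ) + 1) * (d - j)) • (e ^ j * σ * e ^ (d - 1 - j))) := by
  have key : e * e * (∑ j ∈ Finset.range d, (((j : ℤ) + 1) * (d - j)) •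
        (e ^ j * σ * e ^ (d - 1 - j))) -
      2 * (e * (∑ j ∈ Finset.range d, (((j : ℤ) + 1) * (d - j)) •
        (e ^ j * σ * e ^ (d - 1 - j))) * e) +
      (∑ j ∈ Finset.range d, (((j : ℤ) + 1) * (d - j)) •
        (e ^ j * σ * e ^ (d - 1 - j))) * e * e =
      ∑ j ∈ Finset.range d, (((j : ℤ) + 1) * (d - j)) •
        ((e ^ (j + 2) * σ * e ^ (d + 1 - (j + 2))) -
          (2 : ℤ) • (e ^ (j + 1) * σ * e ^ (d + 1 - (j + 1))) + (e ^ j * σ * e ^ (d + 1 - j))) := by
    rw [Finset.mul_sum, Finset.mul_sum, Finset.sum_mul, Finset.sum_mul, Finset.sum_mul,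
      Finset.mul_sum, ← Finset.sum_sub_distrib, ← Finset.sum_add_distrib]
    refine Finset.sum_congr rfl fun j hj => ?_
    have hj' := Finset.mem_range.1 hj
    have h1 : d + 1 - (j + 2) = d - 1 - j := by omega
    have h2 : d + 1 - (j + 1) = d - 1 - j + 1 := by omega
    have h3 : d + 1 - j = d - 1 - j + 1 + 1 := by omega
    rw [h1, h2, h3, smul_add, smul_sub]
    congr 1
    · congr 1
      · rw [mul_smul_comm, pow_succ' e (j + 1), pow_succ' e j]
        simp only [mul_assoc]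
      · rw [mul_smul_comm, smul_mul_assoc, mul_smul_comm, pow_succ' e j,
          pow_succ e (d - 1 - j), two_smul, two_mul]
        simp only [mul_assoc]
    · rw [smul_mul_assoc, smul_mul_assoc, pow_succ, pow_succ]
      simp only [mul_assoc]
  rw [LinEq, key, sum_gamma (fun i => e ^ i * σ * e ^ (d + 1 - i)) (d : ℤ) d]
  have h0 : e ^ 0 * σ * e ^ (d + 1 - 0) = 0 := by rw [Nat.sub_zero, he, mul_zero]
  have h1 : e ^ (d + 1) * σ * e ^ (d + 1 - (d + 1)) = 0 := by rw [he, zero_mul, zero_mul]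
  have h2 : ∑ i ∈ Finset.range d, e ^ (i + 1) * σ * e ^ (d + 1 - (i + 1)) = e := by
    conv_rhs => rw [hσ]
    refine Finset.sum_congr rfl fun i _ => ?_
    rw [Nat.add_sub_add_right]
  rw [h0, h1, h2, sub_self, mul_zero, zero_smul, smul_zero, smul_zero, sub_zero, zero_sub,
    add_zero, two_smul, two_mul]

end RingLemmas

variable {C : Type u} [Category.{v} C] [Preadditive C] [Linear ℚ C] [CorrTheory.{v, u, w} C]

/-- (3) Retracts. -/
theorem linLef_retract {X Y : C} {e : X ⟶ X} {e' : Y ⟶ Y} {r : ℤ} {u : X ⟶ Y} {v : Y ⟶ X}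
    (hu : u ∈ deg X Y r) (hv : v ∈ deg Y X (-r)) (huv : u ≫ v = 𝟙 X) (h1 : e ≫ u = u ≫ e')
    (h2 : v ≫ e = e' ≫ v) (h : LinLef e') : LinLef e := by
  obtain ⟨f, hf, hfe⟩ := h
  refine ⟨u ≫ f ≫ v, ?_, ?_⟩
  · have := comp_mem hu (comp_mem hf hv)
    rwa [show r + (-1 + -r) = -1 by ring] at this
  · have k1 : e ≫ e ≫ u ≫ f ≫ v = u ≫ (e' ≫ e' ≫ f) ≫ v := by
      rw [← Category.assoc e u, h1, Category.assoc, ← Category.assoc e u, h1]
      simp only [Category.assoc]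
    have k2 : e ≫ (u ≫ f ≫ v) ≫ e = u ≫ (e' ≫ f ≫ e') ≫ v := by
      simp only [Category.assoc]
      rw [h2, ← Category.assoc e u, h1]
      simp only [Category.assoc]
    have k3 : (u ≫ f ≫ v) ≫ e ≫ e = u ≫ (f ≫ e' ≫ e') ≫ v := by
      simp only [Category.assoc]
      rw [← Category.assoc v e, h2, Category.assoc, h2]
    rw [k1, k2, k3]
    have k4 : u ≫ (e' ≫ e' ≫ f) ≫ v - (2 : ℤ) • u ≫ (e' ≫ f ≫ e') ≫ v +
        u ≫ (f ≫ e' ≫ e') ≫ v =
        u ≫ (e' ≫ e' ≫ f - (2 : ℤ) • (e' ≫ f ≫ e') + f ≫ e' ≫ e') ≫ v := by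
      rw [Preadditive.add_comp, Preadditive.sub_comp, Preadditive.comp_add,
        Preadditive.comp_sub, Preadditive.zsmul_comp, Preadditive.comp_zsmul]
    rw [k4, hfe, Preadditive.neg_comp, Preadditive.comp_neg, Preadditive.zsmul_comp,
      Preadditive.comp_zsmul, ← Category.assoc, ← h1, Category.assoc, huv, Category.comp_id]

theorem pow_eq_zero {X : C} {e : End X} (he : e ∈ gr X 1) : e ^ (dim X + 1) = 0 := by
  have h2 := pow_deg (gr_one X) (gr_mul X) he (dim X + 1)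
  rw [gr_bot _ _ (by rw [mul_one, Nat.abs_cast]; push_cast; omega)] at h2
  simpa using h2

/-- (4) If `Δ_* l` is a combination of the classes `l^i × l^{d + 1 - i}`. -/
theorem linLef_decomp {X : C} {e σ : End X} (he : e ∈ gr X 1) (hσ : σ ∈ gr X (-(dim X : ℤ)))
    (h : e = ∑ i ∈ Finset.range (dim X), e ^ (i + 1) * σ * e ^ (dim X - i)) : LinLef e := by
  rw [linLef_iff]
  refine ⟨_, ?_, linEq_decomp (pow_eq_zero he) h⟩
  refine Submodule.sum_mem _ fun j hj => ?_
  have hj' := Finset.mem_range.1 hj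
  have h1 := gr_mul X _ _ _ _ (gr_mul X _ _ _ _ (pow_deg (gr_one X) (gr_mul X) he j) hσ)
    (pow_deg (gr_one X) (gr_mul X) he (dim X - 1 - j))
  have h2 : ((j : ℤ) * 1 + -(dim X : ℤ) + ((dim X - 1 - j : ℕ) : ℤ) * 1) = -1 := by omega
  rw [h2] at h1
  exact zsmul_mem h1 _

end Pool.Agent.Helper47.CK
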