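import Pool.Agent.Helper47.CK.MainB

/-!
# Hypersurfaces and complete intersections
-/

set_option autoImplicit false

open CategoryTheory

namespace Pool.Agent.Helper47.CK

universe v u w

open CorrTheory

variable {C : Type u} [Category.{v} C] [Preadditive C] [Linear ℚ C] [CorrTheory.{v, u, w} C]

/-- `X` maps to `P` by a morphism `g` with `g^* L_P = L_X` and `g_* g^* = a · c₁(L_P)^c`, where
`c = dim P - dim X`. Here `up = g^*`, `down = g_*`, `e = Δ_* c₁(L_P)` and `e' = Δ_* c₁(L_X)`. -/
structure IsMap (P X : C) (e : End P) (e' : End X) (up : P ⟶ X) (down : X ⟶ P) (a : ℚ)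
    (c : ℕ) : Prop where
  dim_eq : dim P = dim X + c
  ne_zero : a ≠ 0
  up_mem : up ∈ deg P X 0
  down_mem : down ∈ deg X P c
  up_comm : (e : P ⟶ P) ≫ up = up ≫ e'
  down_comm : (e' : X ⟶ X) ≫ down = down ≫ e
  up_down : up ≫ down = a • (e ^ c : End P)

omit [Preadditive C] [Linear ℚ C] [CorrTheory C] in
theorem comm_pow_left {X Y : C} {e : End X} {e' : End Y} {u : X ⟶ Y}
    (h : (e : X ⟶ X) ≫ u = u ≫ e') (k : ℕ) :
    (e ^ k : End X) ≫ u = u ≫ (e' ^ k : End Y) := by
  induction k with
  | zero =>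
    rw [pow_zero, pow_zero]
    exact (Category.id_comp u).trans (Category.comp_id u).symm
  | succ k ih =>
    rw [pow_succ, pow_succ]
    change (e ≫ (e ^ k : End X)) ≫ u = u ≫ e' ≫ (e' ^ k : End Y)
    rw [Category.assoc, ih, ← Category.assoc, h, Category.assoc]

/-- `P` with Lefschetz operator `e` has diagonal class `∑ h^i × h^{N-i}`; this is the case for
projective space of dimension `N` and `e = Δ_* h`, with `ρ` the class of `P × P`. -/
def IsProj (P : C) (e : End P) : Prop :=
  ∃ ρ ∈ gr P (-(dim P : ℤ)),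
    ∑ i ∈ Finset.range (dim P + 1), e ^ i * ρ * e ^ (dim P - i) = (1 : End P)

/-- The operator `θ ↦ a⁻¹ g^* θ g_*`. -/
noncomputable def tw {P X : C} (up : P ⟶ X) (down : X ⟶ P) (a : ℚ) (θ : End P) : End X :=
  a⁻¹ • (down ≫ (θ : P ⟶ P) ≫ up)

theorem tw_mem {P X : C} {up : P ⟶ X} {down : X ⟶ P} {a : ℚ} {c : ℕ} {r : ℤ} {θ : End P}
    (hup : up ∈ deg P X 0) (hdown : down ∈ deg X P c) (hθ : θ ∈ gr P r) :
    tw up down a θ ∈ gr X (c + r) := by
  have := comp_mem hdown (comp_mem hθ hup)
  rw [add_zero] at this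
  exact (gr X _).smul_mem _ this

/-- (5) Smooth hypersurfaces of projective space satisfy the linear Lefschetz equation. -/
theorem linLef_hypersurface {P X : C} {e : End P} {e' : End X} {up : P ⟶ X} {down : X ⟶ P}
    {a m : ℚ} (hP : IsProj P e) (hM : IsMap P X e e' up down a 1) (hm : m ≠ 0)
    (he' : e' ∈ gr X 1) (hself : down ≫ up = m • (e' : X ⟶ X)) : LinLef e' := by
  obtain ⟨ρ, hρ, hsum⟩ := hP
  have hdim := hM.dim_eq
  refine linLef_decomp (σ := tw up down m ρ) he' ?_ ?_
  · have := tw_mem (a := m) hM.up_mem hM.down_mem hρ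
    convert this using 2
    omega
  · have h0 := pow_eq_zero he'
    have key : ∀ i k : ℕ, tw up down m (e ^ i * ρ * e ^ k) = e' ^ i * tw up down m ρ * e' ^ k := by
      intro i k
      have h1 : tw up down m (e ^ i * ρ * e ^ k) =
          m⁻¹ • ((down ≫ (e ^ k : End P)) ≫ (ρ : P ⟶ P) ≫ ((e ^ i : End P) ≫ up)) := by
        have h3 : tw up down m (e ^ i * ρ * e ^ k) =
          m⁻¹ • (down ≫ ((e ^ k : End P) ≫ (ρ : P ⟶ P) ≫ (e ^ i : End P)) ≫ up) := rfl
        rw [h3]
        simp only [Category.assoc]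
      have h2 : e' ^ i * tw up down m ρ * e' ^ k =
          m⁻¹ • (((e' ^ k : End X) ≫ down) ≫ (ρ : P ⟶ P) ≫ (up ≫ (e' ^ i : End X))) := by
        have h3 : e' ^ i * tw up down m ρ * e' ^ k =
          (e' ^ k : End X) ≫ (m⁻¹ • (down ≫ (ρ : P ⟶ P) ≫ up)) ≫ (e' ^ i : End X) := rfl
        rw [h3, Linear.smul_comp, Linear.comp_smul]
        simp only [Category.assoc]
      rw [h1, h2, comm_pow_left hM.up_comm, comm_pow_left hM.down_comm]
    have h1 : e' = ∑ i ∈ Finset.range (dim P + 1), e' ^ i * tw up down m ρ * e' ^ (dim P - i) := by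
      have h2 : tw up down m 1 = e' := by
        have h3 : tw up down m 1 = m⁻¹ • (down ≫ 𝟙 P ≫ up) := rfl
        rw [h3, Category.id_comp, hself, smul_smul, inv_mul_cancel₀ hm, one_smul]
      have h4 : tw up down m (∑ i ∈ Finset.range (dim P + 1), e ^ i * ρ * e ^ (dim P - i)) =
          ∑ i ∈ Finset.range (dim P + 1), tw up down m (e ^ i * ρ * e ^ (dim P - i)) := by
        have h5 : ∀ (s : Finset ℕ) (g : ℕ → End P), tw up down m (∑ i ∈ s, g i) =
            ∑ i ∈ s, tw up down m (g i) := by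
          intro s g
          have h6 : ∀ x y : End P, tw up down m (x + y) = tw up down m x + tw up down m y := by
            intro x y
            have h7 : tw up down m (x + y) = m⁻¹ • (down ≫ ((x : P ⟶ P) + y) ≫ up) := rfl
            rw [h7, Preadditive.add_comp, Preadditive.comp_add, smul_add]
            rfl
          have h8 : tw up down m (0 : End P) = 0 := by
            have h7 : tw up down m (0 : End P) = m⁻¹ • (down ≫ (0 : P ⟶ P) ≫ up) := rfl
            rw [h7, Limits.zero_comp, Limits.comp_zero, smul_zero]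
          exact map_sum (⟨⟨tw up down m, h8⟩, h6⟩ : End P →+ End X) g s
        exact h5 _ _
      rw [hsum, h2] at h4
      conv_lhs => rw [h4]
      exact Finset.sum_congr rfl fun i _ => key _ _
    rw [hdim, Finset.sum_range_succ, Nat.sub_self] at h1
    rw [Finset.sum_range_succ', Nat.sub_zero, h0, mul_zero, zero_mul, zero_mul, add_zero,
      add_zero] at h1
    conv_lhs => rw [h1]
    refine Finset.sum_congr rfl fun i _ => ?_
    rw [Nat.add_sub_add_right]

end Pool.Agent.Helper47.CK
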