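import Pool.Agent.Helper47.CK.MainC

/-!
# Complete intersections and ample covers
-/

set_option autoImplicit false

open CategoryTheory

namespace Pool.Agent.Helper47.CK

universe v u w

open CorrTheory

section Ring

variable {R : Type*} [Ring R] [Algebra ℚ R] {A : ℤ → Submodule ℚ R} {e : R} {n : ℕ}

/-- Left inverse of `e ^ c` in negative weights. -/
def LefData.al (D : LefData A e n) (c k : ℕ) : R :=
  D.w (-(k + c : ℕ)) * D.lam (k + c) * e ^ k

/-- Right inverse of `e ^ c` in positive weights. -/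
def LefData.be (D : LefData A e n) (c k : ℕ) : R :=
  e ^ k * D.lam (k + c) * D.w ((k + c : ℕ))

/-- The two families together. -/
def LefData.th (D : LefData A e n) (c : ℕ) (s : ℤ) : R :=
  if s < 0 then D.al c (-s).toNat else D.be c s.toNat

theorem LefData.th_neg (D : LefData A e n) (c k : ℕ) (hk : 0 < k) :
    D.th c (-(k : ℤ)) = D.al c k := by
  rw [LefData.th, if_pos (by omega), neg_neg, Int.toNat_natCast]

theorem LefData.th_pos (D : LefData A e n) (c k : ℕ) :
    D.th c (k : ℤ) = D.be c k := by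
  rw [LefData.th, if_neg (by omega), Int.toNat_natCast]

theorem LefData.th_left (D : LefData A e n) (c : ℕ) (s : ℤ) (hs : s ≠ 0) :
    D.w (s - c) * D.th c s = D.th c s := by
  rcases lt_or_gt_of_ne hs with h | h
  · obtain ⟨k, hk⟩ := Int.eq_ofNat_of_zero_le (show 0 ≤ -s by omega)
    obtain rfl : s = -(k : ℤ) := by omega
    rw [D.th_neg c k (by omega), LefData.al, mul_assoc, ← mul_assoc,
      show (-(k : ℤ) - c) = -((k + c : ℕ) : ℤ) by push_cast; ring, D.w_idem]
  · obtain ⟨k, rfl⟩ := Int.eq_ofNat_of_zero_le h.le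
    rw [D.th_pos, LefData.be, mul_assoc, D.lam_w, ← mul_assoc (e ^ k), D.e_pow_w, mul_assoc,
      ← mul_assoc]
    have h1 : (((k + c : ℕ) : ℤ) - 2 * ((k + c : ℕ) : ℤ) + 2 * (k : ℤ)) = (k : ℤ) - c := by
      push_cast; ring
    rw [h1, D.w_idem]

theorem LefData.th_right (D : LefData A e n) (c : ℕ) (s : ℤ) (hs : s ≠ 0) :
    D.th c s * D.w (s + c) = D.th c s := by
  rcases lt_or_gt_of_ne hs with h | h
  · obtain ⟨k, hk⟩ := Int.eq_ofNat_of_zero_le (show 0 ≤ -s by omega)
    obtain rfl : s = -(k : ℤ) := by omega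
    rw [D.th_neg c k (by omega), LefData.al, mul_assoc, D.e_pow_w, ← mul_assoc, mul_assoc (D.w _),
      D.lam_w, ← mul_assoc]
    have h1 : (-(k : ℤ) + c + 2 * k - 2 * ((k + c : ℕ) : ℤ)) = -((k + c : ℕ) : ℤ) := by
      push_cast; ring
    rw [h1, D.w_idem]
  · obtain ⟨k, rfl⟩ := Int.eq_ofNat_of_zero_le h.le
    rw [D.th_pos, LefData.be, mul_assoc,
      show ((k : ℤ) + c) = ((k + c : ℕ) : ℤ) by push_cast; ring, D.w_idem]

theorem LefData.al_e (D : LefData A e n) (c k : ℕ) :
    D.al c k * e ^ c = D.w (-((k + c : ℕ) : ℤ)) := by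
  have h1 : D.lam (k + c) * e ^ (k + c) * D.w (-((k + c : ℕ) : ℤ)) =
      D.w (-((k + c : ℕ) : ℤ)) * (D.lam (k + c) * e ^ (k + c)) := by
    rw [mul_assoc, D.e_pow_w, ← mul_assoc, D.lam_w, mul_assoc]
    congr 2
    ring
  rw [LefData.al, mul_assoc, ← pow_add, mul_assoc, ← h1, D.lam_e]

theorem LefData.e_be (D : LefData A e n) (c k : ℕ) :
    e ^ c * D.be c k = D.w (((k + c : ℕ) : ℤ)) := by
  rw [LefData.be, ← mul_assoc, ← mul_assoc, ← pow_add, add_comm c k, D.e_lam]

theorem LefData.th_idem (D : LefData A e n) (c : ℕ) (s : ℤ) (hs : s ≠ 0) :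
    D.th c s * e ^ c * D.th c s = D.th c s := by
  rcases lt_or_gt_of_ne hs with h | h
  · have h1 := D.th_left c s hs
    obtain ⟨k, hk⟩ := Int.eq_ofNat_of_zero_le (show 0 ≤ -s by omega)
    obtain rfl : s = -(k : ℤ) := by omega
    rw [show (-(k : ℤ) - c) = -((k + c : ℕ) : ℤ) by push_cast; ring] at h1
    rw [D.th_neg c k (by omega)] at h1 ⊢
    rw [D.al_e, h1]
  · have h1 := D.th_right c s hs
    obtain ⟨k, rfl⟩ := Int.eq_ofNat_of_zero_le h.le
    rw [D.th_pos, show ((k : ℤ) + c) = ((k + c : ℕ) : ℤ) by push_cast; ring] at h1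
    rw [D.th_pos, mul_assoc, D.e_be, h1]

theorem LefData.th_orth (D : LefData A e n) (c : ℕ) (s t : ℤ) (hs : s ≠ 0) (ht : t ≠ 0)
    (hst : s ≠ t) : D.th c s * e ^ c * D.th c t = 0 := by
  have h1 : e ^ c * D.w (t - c) = D.w (t + c) * e ^ c := by
    rw [D.e_pow_w]; congr 2; ring
  rw [← D.th_right c s hs, ← D.th_left c t ht, mul_assoc, ← mul_assoc (e ^ c), h1,
    ← mul_assoc, ← mul_assoc, mul_assoc (D.th c s), D.w_orth _ _ (by omega), mul_zero, zero_mul,
    zero_mul]

theorem LefData.th_mem (D : LefData A e n) (h1 : (1 : R) ∈ A 0)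
    (hmul : ∀ (a b : ℤ) (x y : R), x ∈ A a → y ∈ A b → x * y ∈ A (a + b)) (he : e ∈ A 1)
    (c : ℕ) (s : ℤ) : D.th c s ∈ A (-c) := by
  rw [LefData.th]
  split_ifs with h
  · have := hmul _ _ _ _ (hmul _ _ _ _ (D.w_deg (-((-s).toNat + c : ℕ)))
      (D.lam_deg ((-s).toNat + c))) (pow_deg h1 hmul he (-s).toNat)
    have h2 : (0 + -(((-s).toNat + c : ℕ) : ℤ) + ((-s).toNat : ℤ) * 1) = -c := by
      push_cast; ring
    rw [h2] at this
    exact this
  · have := hmul _ _ _ _ (hmul _ _ _ _ (pow_deg h1 hmul he s.toNat) (D.lam_deg (s.toNat + c)))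
      (D.w_deg ((s.toNat + c : ℕ)))
    have h2 : ((s.toNat : ℤ) * 1 + -((s.toNat + c : ℕ) : ℤ) + 0) = -c := by
      push_cast; ring
    rw [h2] at this
    exact this

theorem LefData.th_pos_e (D : LefData A e n) (c k : ℕ) :
    D.be c k * e ^ (c + k) = e ^ k * D.w (-((k + c : ℕ) : ℤ)) := by
  have h1 : D.w ((k + c : ℕ) : ℤ) * e ^ (k + c) = e ^ (k + c) * D.w (-((k + c : ℕ) : ℤ)) := by
    rw [D.e_pow_w]; congr 2; ring
  rw [LefData.be, mul_assoc, add_comm c k, h1, mul_assoc, ← mul_assoc (D.lam (k + c)), D.lam_e]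

end Ring

variable {C : Type u} [Category.{v} C] [Preadditive C] [Linear ℚ C] [CorrTheory.{v, u, w} C]

/-- Completing orthogonal projectors outside the middle degree. -/
theorem complete {X : C} (q : ℤ → End X) (hdeg : ∀ i, q i ∈ gr X 0)
    (hid : ∀ i : ℤ, i ≠ dim X → q i * q i = q i)
    (horth : ∀ i j : ℤ, i ≠ dim X → j ≠ dim X → i ≠ j → q i * q j = 0)
    (hact : ∀ i : ℤ, i ≠ dim X → 0 ≤ i → i ≤ 2 * dim X → ∀ x ∈ coh X i, act (q i) x = x)
    (hact' : ∀ i j : ℤ, i ≠ dim X → j ≠ i → ∀ x ∈ coh X j, act (q i) x = 0) : HasCK X := by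
  classical
  set S : Finset ℤ := (Finset.Icc (0 : ℤ) (2 * (dim X : ℤ))).erase (dim X) with hS
  set Q : End X := ∑ i ∈ S, q i with hQ
  have hSn : ∀ i ∈ S, i ≠ dim X := fun i hi => Finset.ne_of_mem_erase hi
  have hQl : ∀ i ∈ S, Q * q i = q i := by
    intro i hi
    rw [hQ, Finset.sum_mul, Finset.sum_eq_single_of_mem i hi, hid i (hSn i hi)]
    intro j hj hji
    exact horth j i (hSn j hj) (hSn i hi) hji
  have hQr : ∀ i ∈ S, q i * Q = q i := by
    intro i hi
    rw [hQ, Finset.mul_sum, Finset.sum_eq_single_of_mem i hi, hid i (hSn i hi)]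
    intro j hj hji
    exact horth i j (hSn i hi) (hSn j hj) (Ne.symm hji)
  have hQQ : Q * Q = Q := by
    conv_lhs => rw [hQ, Finset.sum_mul]
    exact Finset.sum_congr rfl fun i hi => hQr i hi
  let p : ℤ → End X := fun i => if i = dim X then 1 - Q else if i ∈ S then q i else 0
  have pn : p (dim X) = 1 - Q := if_pos rfl
  have pS : ∀ i ∈ S, p i = q i := by
    intro i hi
    rw [show p i = if i = dim X then 1 - Q else if i ∈ S then q i else 0 from rfl,
      if_neg (hSn i hi), if_pos hi]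
  have p0 : ∀ i : ℤ, i ≠ dim X → i ∉ S → p i = 0 := by
    intro i hi hi'
    rw [show p i = if i = dim X then 1 - Q else if i ∈ S then q i else 0 from rfl,
      if_neg hi, if_neg hi']
  have hact0 : ∀ x : H X, act (0 : X ⟶ X) x = 0 := by
    intro x; rw [map_zero]; rfl
  have hactQ : ∀ x : H X, act (p (dim X)) x = x - ∑ i ∈ S, act (q i) x := by
    intro x
    have h1 : act (p (dim X)) = act (𝟙 X) - ∑ i ∈ S, act (q i) := by
      rw [pn, hQ]
      rw [← map_sum]
      exact map_sub act (𝟙 X) _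
    rw [h1, LinearMap.sub_apply, act_id, LinearMap.sum_apply]
  refine ⟨_, isCK_of_int p ?_ ?_ ?_ ?_ ?_ ?_⟩
  · intro i
    by_cases h1 : i = dim X
    · rw [h1, pn]
      exact (gr X 0).sub_mem (gr_one X) ((gr X 0).sum_mem fun i _ => hdeg i)
    · by_cases h2 : i ∈ S
      · rw [pS i h2]; exact hdeg i
      · rw [p0 i h1 h2]; exact (gr X 0).zero_mem
  · intro i
    by_cases h1 : i = dim X
    · rw [h1, pn, mul_sub, sub_mul, sub_mul, hQQ]; simp
    · by_cases h2 : i ∈ S
      · rw [pS i h2]; exact hid i h1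
      · rw [p0 i h1 h2, mul_zero]
  · intro i j hij
    by_cases h1 : i = dim X
    · by_cases h2 : j ∈ S
      · rw [h1, pn, pS j h2, sub_mul, one_mul, hQl j h2, sub_self]
      · rw [p0 j (fun h => hij (h1.trans h.symm)) h2, mul_zero]
    · by_cases h2 : i ∈ S
      · by_cases h3 : j = dim X
        · rw [h3, pn, pS i h2, mul_sub, mul_one, hQr i h2, sub_self]
        · by_cases h4 : j ∈ S
          · rw [pS i h2, pS j h4]; exact horth i j h1 h3 hij
          · rw [p0 j h3 h4, mul_zero]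
      · rw [p0 i h1 h2, zero_mul]
  · have hn : (dim X : ℤ) ∈ Finset.Icc (0 : ℤ) (2 * (dim X : ℤ)) :=
      Finset.mem_Icc.2 ⟨by omega, by omega⟩
    rw [← Finset.add_sum_erase _ _ hn, ← hS, pn, Finset.sum_congr rfl pS, ← hQ, sub_add_cancel]
  · intro i x hx
    by_cases h1 : i = dim X
    · rw [h1, hactQ, Finset.sum_eq_zero, sub_zero]
      intro j hj
      exact hact' j i (hSn j hj) (by rw [h1]; exact (hSn j hj).symm) x hx
    · by_cases h2 : i ∈ S
      · rw [pS i h2]
        have := Finset.mem_Icc.1 (Finset.mem_of_mem_erase h2)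
        exact hact i h1 this.1 this.2 x hx
      · have h3 : i < 0 ∨ 2 * (dim X : ℤ) < i := by
          by_contra h4
          exact h2 (Finset.mem_erase.2 ⟨h1, Finset.mem_Icc.2 ⟨by omega, by omega⟩⟩)
        rw [coh_bot h3, Submodule.mem_bot] at hx
        rw [hx, map_zero]
  · intro i j hji x hx
    by_cases h1 : i = dim X
    · rw [h1, hactQ]
      by_cases h2 : j ∈ S
      · rw [Finset.sum_eq_single_of_mem j h2]
        · have := Finset.mem_Icc.1 (Finset.mem_of_mem_erase h2)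
          rw [hact j (hSn j h2) this.1 this.2 x hx, sub_self]
        · intro k hk hkj
          exact hact' k j (hSn k hk) (Ne.symm hkj) x hx
      · have h3 : j < 0 ∨ 2 * (dim X : ℤ) < j := by
          by_contra h4
          exact h2 (Finset.mem_erase.2 ⟨by rw [← h1]; exact hji,
            Finset.mem_Icc.2 ⟨by omega, by omega⟩⟩)
        rw [coh_bot h3, Submodule.mem_bot] at hx
        rw [hx, Finset.sum_eq_zero fun k _ => map_zero _, sub_zero]
    · by_cases h2 : i ∈ S
      · rw [pS i h2]; exact hact' i j h1 hji x hx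
      · rw [p0 i h1 h2]; exact hact0 x

end Pool.Agent.Helper47.CK
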