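import Pool.Agent.Helper47.CK.MainD

/-!
# Chow-Kuenneth decompositions of complete intersections and ample covers
-/

set_option autoImplicit false

open CategoryTheory

namespace Pool.Agent.Helper47.CK

universe v u w

open CorrTheory

variable {C : Type u} [Category.{v} C] [Preadditive C] [Linear ℚ C] [CorrTheory.{v, u, w} C]

theorem tw_mul {P X : C} {e : End P} {e' : End X} {up : P ⟶ X} {down : X ⟶ P}
    {a : ℚ} {c : ℕ} (hM : IsMap P X e e' up down a c) (θ θ' : End P) :
    tw up down a θ * tw up down a θ' = tw up down a (θ * e ^ c * θ') := by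
  have h1 : tw up down a θ * tw up down a θ' =
      (a⁻¹ • (down ≫ (θ' : P ⟶ P) ≫ up)) ≫ (a⁻¹ • (down ≫ (θ : P ⟶ P) ≫ up)) := rfl
  have h2 : tw up down a (θ * e ^ c * θ') =
      a⁻¹ • (down ≫ ((θ' : P ⟶ P) ≫ (e ^ c : End P) ≫ (θ : P ⟶ P)) ≫ up) := rfl
  have h3 : (down ≫ (θ' : P ⟶ P) ≫ up) ≫ (down ≫ (θ : P ⟶ P) ≫ up) =
      down ≫ ((θ' : P ⟶ P) ≫ (up ≫ down) ≫ (θ : P ⟶ P)) ≫ up := by
    simp only [Category.assoc]
  rw [h1, h2, Linear.smul_comp, Linear.comp_smul, h3, hM.up_down, Linear.smul_comp,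
    Linear.comp_smul, Linear.smul_comp, Linear.comp_smul, smul_smul (a⁻¹) a,
    inv_mul_cancel₀ hM.ne_zero, one_smul]

theorem act_tw {P X : C} (up : P ⟶ X) (down : X ⟶ P) (a : ℚ) (θ : End P) (x : H X) :
    act (tw up down a θ) x = a⁻¹ • act up (act θ (act down x)) := by
  have h1 : tw up down a θ = a⁻¹ • (down ≫ (θ : P ⟶ P) ≫ up) := rfl
  rw [h1, map_smul, LinearMap.smul_apply, act_comp, act_comp]

theorem act_mul {P : C} (x y : End P) (z : H P) : act (x * y) z = act x (act y z) :=
  act_comp y x z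

/-- Chow-Kuenneth decomposition of `X` from the linear Lefschetz equation on `P`. -/
theorem ck_of_map {P X : C} {e : End P} {e' : End X} {up : P ⟶ X} {down : X ⟶ P}
    {a : ℚ} {c : ℕ} (he : IsLef e) (he' : IsLef e') (hL : LinLef e)
    (hM : IsMap P X e e' up down a c)
    (hweak : ∀ j : ℤ, j < dim X → ∀ x ∈ coh X j, ∃ y ∈ coh P j, act up y = x) : HasCK X := by
  obtain ⟨D⟩ := data_of_linLef he.mem hL
  have hdim : (dim P : ℤ) = dim X + c := by exact_mod_cast hM.dim_eq
  have hmap : ∀ y : H P, act down (act up y) = a • act (e ^ c : End P) y := by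
    intro y
    rw [← act_comp, hM.up_down, map_smul, LinearMap.smul_apply]
  have wid := (grAct he).w_id (gr_one P) (gr_mul P) he.mem D
  have wzero := (grAct he).w_zero (gr_one P) (gr_mul P) he.mem D
  refine complete (fun i => tw up down a (D.th c (i - dim X))) ?_ ?_ ?_ ?_ ?_
  · intro i
    have := tw_mem (a := a) hM.up_mem hM.down_mem
      (D.th_mem (gr_one P) (gr_mul P) he.mem c (i - dim X))
    rwa [add_neg_cancel] at this
  · intro i hi
    rw [tw_mul hM, D.th_idem c _ (sub_ne_zero.2 hi)]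
  · intro i j hi hj hij
    rw [tw_mul hM, D.th_orth c _ _ (sub_ne_zero.2 hi) (sub_ne_zero.2 hj) (by omega)]
    have h7 : tw up down a (0 : End P) = a⁻¹ • (down ≫ (0 : P ⟶ P) ≫ up) := rfl
    rw [h7, Limits.zero_comp, Limits.comp_zero, smul_zero]
  · intro i hi hi0 hi2 x hx
    rw [act_tw]
    rcases lt_or_gt_of_ne hi with h | h
    · obtain ⟨k, hk⟩ := Int.eq_ofNat_of_zero_le (show 0 ≤ (dim X : ℤ) - i by omega)
      obtain ⟨y, hy, rfl⟩ := hweak i h x hx
      have hs : i - dim X = -(k : ℤ) := by omega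
      rw [hs, D.th_neg c k (by omega), hmap, map_smul, ← act_mul, D.al_e, map_smul, smul_smul,
        inv_mul_cancel₀ hM.ne_zero, one_smul]
      have h2 : act (D.w (-((k + c : ℕ) : ℤ))) y = y :=
        wid (-((k + c : ℕ) : ℤ)) i (by push_cast; omega) y hy
      rw [h2]
    · obtain ⟨k, hk⟩ := Int.eq_ofNat_of_zero_le (show 0 ≤ i - (dim X : ℤ) by omega)
      have hkX : k ≤ dim X := by omega
      obtain ⟨x', hx', hxx⟩ := (he'.hard k hkX).surjOn
        (show x ∈ coh X (dim X + k) by convert hx using 2; omega)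
      obtain ⟨y, hy, rfl⟩ := hweak (dim X - k) (by omega) x' hx'
      have h3 : x = act up (act (e ^ k : End P) y) := by
        rw [← hxx, ← act_comp, ← act_comp, comm_pow_left hM.up_comm]
      have hs : i - dim X = (k : ℤ) := by omega
      rw [hs, D.th_pos, h3, hmap, ← act_mul, ← pow_add, map_smul, ← act_mul, D.th_pos_e, map_smul,
        smul_smul, inv_mul_cancel₀ hM.ne_zero, one_smul, act_mul]
      have h2 : act (D.w (-((k + c : ℕ) : ℤ))) y = y :=
        wid (-((k + c : ℕ) : ℤ)) (dim X - k) (by push_cast; omega) y hy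
      rw [h2]
  · intro i j hi hij x hx
    have h1 : act (D.w (i - dim X + c)) (act down x) = 0 :=
      wzero (i - dim X + c) (j + 2 * c) (by omega) _ (act_mem hM.down_mem hx)
    rw [act_tw, ← D.th_right c _ (sub_ne_zero.2 hi), act_mul, h1, map_zero, map_zero, smul_zero]

end Pool.Agent.Helper47.CK
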