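import Pool.Agent.Helper47.CK.Conv

/-!
# The linear Lefschetz equation is equivalent to the motivic hard Lefschetz theorem
-/

set_option autoImplicit false

open CategoryTheory

namespace Pool.Agent.Helper47.CK

universe v u w

open CorrTheory

variable {C : Type u} [Category.{v} C] [Preadditive C] [Linear ℚ C] [CorrTheory.{v, u, w} C]

section ext

variable {X : C} {π : Fin (2 * dim X + 1) → (X ⟶ X)} (h : IsCK X π)

include h

theorem ext_mem (j : ℤ) : ext π j ∈ deg X X 0 := by
  rw [ext]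
  split_ifs
  · exact h.deg_zero _
  · exact Submodule.zero_mem _

theorem ext_idem (j : ℤ) : ext π j ≫ ext π j = ext π j := by
  rw [ext]
  split_ifs
  · exact h.idem _
  · exact Limits.comp_zero

theorem ext_orth (i j : ℤ) (hij : i ≠ j) : ext π i ≫ ext π j = 0 := by
  rw [ext, ext]
  split_ifs with h1 h2
  · refine h.orth _ _ fun h3 => hij ?_
    have := congrArg Fin.val h3
    simp only at this
    omega
  · exact Limits.comp_zero
  · exact Limits.zero_comp
  · exact Limits.comp_zero

theorem ext_sum : ∑ j ∈ Finset.Icc (0 : ℤ) (2 * (dim X : ℤ)), ext π j = 𝟙 X := by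
  rw [← h.sum_eq]
  symm
  refine Finset.sum_bij (fun (i : Fin (2 * dim X + 1)) _ => ((i : ℕ) : ℤ)) ?_ ?_ ?_ ?_
  · intro i _
    exact Finset.mem_Icc.2 ⟨by omega, by omega⟩
  · intro i _ j _ hij
    exact Fin.ext (by exact_mod_cast hij)
  · intro b hb
    have := Finset.mem_Icc.1 hb
    exact ⟨⟨b.toNat, by omega⟩, Finset.mem_univ _, by simp only; omega⟩
  · intro i _
    rw [ext, dif_pos ⟨by omega, by omega⟩]
    rfl

end ext

theorem data_of_ck {X : C} {e : End X} {π : Fin (2 * dim X + 1) → (X ⟶ X)} (h : IsCK X π)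
    (hL : MotivicLefschetz e π) : Nonempty (LefData (gr X) e (dim X)) := by
  obtain ⟨hL1, hL2⟩ := hL
  choose! l₀ hl1 hl2 hl3 using hL2
  let l : ℕ → End X := l₀
  let w : ℤ → End X := fun m => ext π (m + dim X)
  have w_idem : ∀ m, w m * w m = w m := fun m => ext_idem h _
  have w_orth : ∀ m m', m ≠ m' → w m * w m' = 0 := fun m m' hm => ext_orth h _ _ (by omega)
  have w_out : ∀ m, m ∉ Finset.Icc (-(dim X : ℤ)) (dim X : ℤ) → w m = 0 := by
    intro m hm
    have hm' : ¬ (0 ≤ m + (dim X : ℤ) ∧ m + (dim X : ℤ) ≤ 2 * dim X) := fun h2 =>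
      hm (Finset.mem_Icc.2 ⟨by omega, by omega⟩)
    change ext π (m + dim X) = 0
    rw [ext, dif_neg hm']
  have e_w : ∀ m, e * w m = w (m + 2) * e := by
    intro m
    have := hL1 (m + dim X)
    rw [show (m + (dim X : ℤ) + 2) = m + 2 + dim X by ring] at this
    exact this
  have e_pow_w : ∀ (k : ℕ) (m : ℤ), e ^ k * w m = w (m + 2 * k) * e ^ k := by
    intro k
    induction k with
    | zero => intro m; simp
    | succ k ih =>
      intro m
      rw [pow_succ, mul_assoc, e_w, ← mul_assoc, ih, mul_assoc]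
      congr 2
      push_cast; ring
  have l1 : ∀ k : ℕ, k ≤ dim X → w (-k) * l k * e ^ k * w (-k) = w (-k) := by
    intro k hk
    have h3 := hl2 k hk
    have h4 : w (-k) = ext π ((dim X : ℤ) - k) := by
      change ext π (-(k : ℤ) + dim X) = _
      congr 1; ring
    rw [h4]
    calc _ = ext π (dim X - k) ≫ (e ^ k : End X) ≫ l₀ k ≫ ext π (dim X - k) := rfl
      _ = _ := h3
  have l2 : ∀ k : ℕ, k ≤ dim X → w k * (e ^ k * l k) * w k = w k := by
    intro k hk
    have h3 := hl3 k hk
    have h4 : w k = ext π ((dim X : ℤ) + k) := by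
      change ext π ((k : ℤ) + dim X) = _
      congr 1; ring
    rw [h4]
    calc _ = ext π (dim X + k) ≫ (l₀ k ≫ (e ^ k : End X)) ≫ ext π (dim X + k) := rfl
      _ = _ := by rw [Category.assoc]; exact h3
  let lam : ℕ → End X := fun k => if k ≤ dim X then w (-k) * l k * w k else 0
  have lam1 : ∀ k, k ≤ dim X → lam k = w (-k) * l k * w k := fun k hk => if_pos hk
  have lam0 : ∀ k, ¬ k ≤ dim X → lam k = 0 := fun k hk => if_neg hk
  refine ⟨⟨w, lam, fun m => ext_mem h _, w_idem, w_orth, w_out, ?_, e_w, ?_, ?_, ?_, ?_⟩⟩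
  · refine Eq.trans ?_ (ext_sum h)
    refine Finset.sum_bij (fun i _ => i + (dim X : ℤ)) ?_ ?_ ?_ ?_
    · intro i hi
      have := Finset.mem_Icc.1 hi
      exact Finset.mem_Icc.2 ⟨by omega, by omega⟩
    · intro i _ j _ h
      exact add_left_injective _ h
    · intro b hb
      have := Finset.mem_Icc.1 hb
      exact ⟨b - dim X, Finset.mem_Icc.2 ⟨by omega, by omega⟩, by omega⟩
    · intro i _; rfl
  · intro k
    by_cases hk : k ≤ dim X
    · rw [lam1 k hk]
      have := gr_mul X _ _ _ _ (gr_mul X _ _ (w (-k)) (l k) (ext_mem h _) (hl1 k hk))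
        (show w k ∈ gr X 0 from ext_mem h _)
      rwa [zero_add, add_zero] at this
    · rw [lam0 k hk]; exact Submodule.zero_mem _
  · intro k m
    by_cases hk : k ≤ dim X
    · rw [lam1 k hk]
      by_cases hm : m = k
      · rw [hm, mul_assoc, w_idem, show ((k : ℤ) - 2 * k) = -k by ring, ← mul_assoc, ← mul_assoc,
          w_idem]
      · rw [mul_assoc, w_orth _ _ (Ne.symm hm), mul_zero, ← mul_assoc, ← mul_assoc,
          w_orth (m - 2 * k) (-k) (by omega), zero_mul, zero_mul]
    · rw [lam0 k hk, zero_mul, mul_zero]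
  · intro k
    by_cases hk : k ≤ dim X
    · have h5 : w k * e ^ k = e ^ k * w (-k) := by
        rw [e_pow_w]; congr 2; ring
      rw [lam1 k hk]
      have h6 : w (-k) * l k * w k * e ^ k * w (-k) =
          w (-k) * l k * (w k * e ^ k) * w (-k) := by
        simp only [mul_assoc]
      rw [h6, h5, mul_assoc, mul_assoc (e ^ k), w_idem, ← mul_assoc, l1 k hk]
    · have h7 := w_out (-k) (fun h2 => by have := Finset.mem_Icc.1 h2; omega)
      rw [h7, mul_zero]
  · intro k
    by_cases hk : k ≤ dim X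
    · have h5 : e ^ k * w (-k) = w k * e ^ k := by
        rw [e_pow_w]; congr 2; ring
      rw [lam1 k hk]
      have h6 : e ^ k * (w (-k) * l k * w k) * w k =
          (e ^ k * w (-k)) * l k * (w k * w k) := by
        simp only [mul_assoc]
      rw [h6, h5, w_idem, mul_assoc (w k), l2 k hk]
    · have h7 := w_out k (fun h2 => by have := Finset.mem_Icc.1 h2; omega)
      rw [h7, mul_zero]

/-- (1) The linear Lefschetz equation is solvable if and only if `X` has a Chow-Kuenneth
decomposition which satisfies the motivic hard Lefschetz theorem. -/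
theorem linLef_iff_ck {X : C} {e : End X} (he : IsLef e) :
    LinLef e ↔ ∃ π, IsCK X π ∧ MotivicLefschetz e π := by
  constructor
  · exact ck_of_linLef he
  · rintro ⟨π, h1, h2⟩
    obtain ⟨D⟩ := data_of_ck h1 h2
    exact (linLef_iff e).2 ⟨D.f, D.f_mem (gr_one X) (gr_mul X) he.mem, D.linEq⟩

/-- (0) The linear Lefschetz equation is solvable if and only if `e` is part of an
`sl₂`-triple of correspondences. -/
theorem linLef_iff_sl {X : C} {e : End X} (he : e ∈ gr X 1) :
    LinLef e ↔ ∃ f ∈ gr X (-1), ∃ h : End X,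
      e * f - f * e = h ∧ h * e - e * h = 2 * e ∧ h * f - f * h = -(2 * f) := by
  rw [linLef_iff]
  constructor
  · rintro ⟨f, hf, hfe⟩
    have hE : (e * f - f * e) * e - e * (e * f - f * e) = 2 * e := by
      rw [← neg_inj, neg_sub, ← (linEq_iff e f).1 hfe]
    have hh0 : (e * f - f * e) ∈ gr X 0 := by
      have h1 := gr_mul X _ _ _ _ he hf
      have h2 := gr_mul X _ _ _ _ hf he
      rw [show (1 + -1 : ℤ) = 0 by ring] at h1
      rw [show (-1 + 1 : ℤ) = 0 by ring] at h2
      exact (gr X 0).sub_mem h1 h2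
    obtain ⟨f', hf', h1, h2⟩ := morozov (e := e) (f := f) rfl hE ⟨_, pow_eq_zero he⟩ (gr X (-1))
      (fun x hx => by
        have h1 := gr_mul X _ _ _ _ hh0 hx
        have h2 := gr_mul X _ _ _ _ hx hh0
        rw [zero_add] at h1
        rw [add_zero] at h2
        exact (gr X (-1)).sub_mem h1 h2) hf
    exact ⟨f', hf', _, h1, hE, h2⟩
  · rintro ⟨f, hf, h, h1, h2, -⟩
    refine ⟨f, hf, ?_⟩
    rw [linEq_iff, h1, ← h2]
    abel

/-- Multiples. -/
theorem linLef_smul {X : C} {e : End X} {c : ℚ} (hc : c ≠ 0) (h : LinLef e) :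
    LinLef (c • e) := by
  rw [linLef_iff] at h ⊢
  obtain ⟨f, hf, hfe⟩ := h
  refine ⟨c⁻¹ • f, (gr X (-1)).smul_mem _ hf, ?_⟩
  rw [LinEq] at hfe ⊢
  have h1 : (c • e) * (c • e) * (c⁻¹ • f) = c • (e * e * f) := by
    rw [smul_mul_smul_comm, smul_mul_smul_comm, mul_assoc c c, mul_inv_cancel₀ hc, mul_one]
  have h2 : 2 * ((c • e) * (c⁻¹ • f) * (c • e)) = c • (2 * (e * f * e)) := by
    rw [smul_mul_smul_comm, smul_mul_smul_comm, mul_inv_cancel₀ hc, one_mul, mul_smul_comm]
  have h3 : (c⁻¹ • f) * (c • e) * (c • e) = c • (f * e * e) := by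
    rw [smul_mul_smul_comm, smul_mul_smul_comm, inv_mul_cancel₀ hc, one_mul]
  rw [h1, h2, h3, ← smul_sub, ← smul_add, hfe, smul_neg, mul_smul_comm]

end Pool.Agent.Helper47.CK
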