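import Pool.Agent.Helper47.CK.Klass

/-!
# Chow-Kuenneth decompositions of complete intersections and ample covers

Let `P` be a smooth projective variety with an ample class `l`, in the class `LefClass` of
polarised varieties. This class contains the smooth hypersurfaces of projective spaces, for the
class of hyperplane sections, and all `(P, l)` for which `Δ_* l` is a multiple of
`∑ l^i × l^{d + 1 - i}` or, more generally, for which the linear equation `[e, [e, f]] = -2 e`,
`e = Δ_* l`, has a solution; and it is closed under products, multiples of the polarisation and
images of generically finite morphisms.

Let `g : X → P` be a morphism of smooth projective varieties such that `g^* l` satisfies hard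
Lefschetz, `g_* g^*` is multiplication by a nonzero multiple of `l^c`, `c = dim P - dim X`, and
`g^* : H^j(P) → H^j(X)` is surjective for `j < dim X`; by the Lefschetz theorem, this is the case
for the smooth complete intersections `X ⊆ P` of divisors which are multiples of `l`, and for the
cyclic covers of such with ample branch divisor. Then `X` has a Chow-Kuenneth decomposition.
-/

set_option autoImplicit false

open CategoryTheory MonoidalCategory Pool.Agent.Helper47.CK Pool.Agent.Helper47.CK.CorrTheory

namespace Pool.Agent.Results.MP_524776_ag.LefschetzClass

universe v u w

/-- **Chow-Kuenneth decompositions of complete intersections in the varieties of the class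
`LefClass`.** -/
theorem result {C : Type u} [Category.{v} C] [Preadditive C] [Linear ℚ C]
    [CorrTheory.{v, u, w} C] [MonoidalCategory C] [MonoidalPreadditive C]
    [TensorTheory.{v, u, w} C] {P X : C} {e : End P} {e' : End X} (hP : LefClass P e)
    (he : IsLef e) (he' : IsLef e') {up : P ⟶ X} {down : X ⟶ P} {a : ℚ} {c : ℕ}
    (hM : IsMap P X e e' up down a c)
    (hweak : ∀ j : ℤ, j < dim X → ∀ x ∈ coh X j, ∃ y ∈ coh P j, act up y = x) : HasCK X :=
  ck_of_map he he' hP.spec hM hweak

end Pool.Agent.Results.MP_524776_ag.LefschetzClass
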