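import Pool.Agent.Helper47.CK.MainF

/-!
# A linear criterion for Chow-Kuenneth decompositions with motivic hard Lefschetz

Let `X` be a smooth projective complex variety of dimension `d` and `l` an ample class on `X`. Let
`e = Δ_* l`, a correspondence of degree `1`. The linear Lefschetz equation asks for a
correspondence `f` of degree `-1`, i.e. `f ∈ CH^{d-1}(X × X)`, with `[e, [e, f]] = -2 e`. Since
`e` acts by multiplication by `l`, this is one linear equation,
`(p₂^* l - p₁^* l)² · f = -2 Δ_* l` in `CH^{d+1}(X × X)`.

We prove that it has a solution if and only if `X` has a Chow-Kuenneth decomposition which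
satisfies the motivic hard Lefschetz theorem for `l`.
-/

set_option autoImplicit false

open CategoryTheory Pool.Agent.Helper47.CK Pool.Agent.Helper47.CK.CorrTheory

namespace Pool.Agent.Results.MP_524776_ag.LinearCriterion

universe v u w

/-- **Linear criterion.** The linear Lefschetz equation for the Lefschetz operator `e` of an
ample class is solvable if and only if `X` has a Chow-Kuenneth decomposition satisfying the motivic
hard Lefschetz theorem for `e`. -/
theorem result {C : Type u} [Category.{v} C] [Preadditive C] [Linear ℚ C]
    [CorrTheory.{v, u, w} C] (X : C) (e : End X) (he : IsLef e) :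
    (∃ f ∈ deg X X (-1),
      e ≫ e ≫ f - (2 : ℤ) • (e ≫ f ≫ e) + f ≫ e ≫ e = -((2 : ℤ) • (e : X ⟶ X))) ↔
    ∃ π : Fin (2 * dim X + 1) → (X ⟶ X), IsCK X π ∧ MotivicLefschetz e π :=
  linLef_iff_ck he

end Pool.Agent.Results.MP_524776_ag.LinearCriterion
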