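import Pool.Agent.Helper47.CK.Sl

/-!
# The ring-theoretic consequences
-/

set_option autoImplicit false

open Polynomial

namespace Pool.Agent.Helper47.CK

section Ring

variable {R : Type*} [Ring R] [Algebra ℚ R] {e f h : R} {n : ℕ}

theorem lmul_rel (hH : e * f - f * e = h) :
    Algebra.lmul ℚ R e * Algebra.lmul ℚ R f - Algebra.lmul ℚ R f * Algebra.lmul ℚ R e =
      Algebra.lmul ℚ R h := by
  rw [← map_mul, ← map_mul, ← map_sub, hH]

theorem lmul_rel' (hE : h * e - e * h = 2 * e) :
    Algebra.lmul ℚ R h * Algebra.lmul ℚ R e - Algebra.lmul ℚ R e * Algebra.lmul ℚ R h =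
      2 * Algebra.lmul ℚ R e := by
  rw [← map_mul, ← map_mul, ← map_sub, hE, map_mul, map_ofNat]

theorem gPoly_pow (n M : ℕ) : gPoly n 1 ^ M = gPoly n M := by
  rw [gPoly, gPoly, ← Finset.prod_pow]
  simp

theorem gPoly_ring (hH : e * f - f * e = h) (hE : h * e - e * h = 2 * e)
    (hn : e ^ (n + 1) = 0) : aeval h (gPoly n (n + 1)) = 0 := by
  have h1 := gPoly_kill (lmul_rel hH) (lmul_rel' hE) (n := n)
    (by rw [← map_pow, hn, map_zero]) (n + 1) le_rfl (1 : R)
    (by rw [← map_pow, hn, map_zero]; rfl)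
  rw [gPoly_pow, Polynomial.aeval_algHom_apply] at h1
  simpa using h1

theorem cas_ring (hH : e * f - f * e = h) (hE : h * e - e * h = 2 * e)
    (hn : e ^ (n + 1) = 0) : aeval (cas e f h) ((casPoly n) ^ (n + 1)) = 0 := by
  have h1 := cas_kill (lmul_rel hH) (lmul_rel' hE) (n := n)
    (by rw [← map_pow, hn, map_zero]) (n + 1) le_rfl (1 : R)
    (by rw [← map_pow, hn, map_zero]; rfl)
  have h2 : cas (Algebra.lmul ℚ R e) (Algebra.lmul ℚ R f) (Algebra.lmul ℚ R h) =
      Algebra.lmul ℚ R (cas e f h) := by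
    rw [cas, cas, map_add, map_add, map_mul, map_mul, map_mul, map_pow, map_ofNat, map_ofNat]
  rw [h2, Polynomial.aeval_algHom_apply] at h1
  simpa using h1

/-- Injectivity of `e ^ k` on elements of generalised weight `-k`. -/
theorem inj_e (hH : e * f - f * e = h) (hE : h * e - e * h = 2 * e)
    (hn : e ^ (n + 1) = 0) (k M : ℕ) (a : R) (ha : (h - ((-k : ℤ) : R)) ^ M * a = 0)
    (hk : e ^ k * a = 0) : a = 0 := by
  by_contra ha0
  classical
  have hex : ∃ j, e ^ j * a = 0 := ⟨k, hk⟩
  obtain ⟨l, hl⟩ : ∃ l, Nat.find hex = l + 1 := by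
    refine Nat.exists_eq_succ_of_ne_zero fun h0 => ha0 ?_
    have := Nat.find_spec hex
    rwa [h0, pow_zero, one_mul] at this
  have hl1 : e ^ (l + 1) * a = 0 := hl ▸ Nat.find_spec hex
  have hl0 : e ^ l * a ≠ 0 := Nat.find_min hex (by omega)
  have hlk : l < k := by
    have := Nat.find_min' hex hk
    omega
  have hln : l ≤ n + 1 := by
    by_contra hcon
    apply hl0
    rw [← Nat.sub_add_cancel (show n + 1 ≤ l by omega), pow_add, hn, mul_zero, zero_mul]
  have hy : h * e ^ l - e ^ l * h = (2 * l : ℤ) • e ^ l := by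
    clear hl hl1 hl0 hlk hln
    induction l with
    | zero => simp
    | succ l ih =>
      have h1 : h * e ^ l = e ^ l * h + (2 * l : ℤ) • e ^ l := by rw [← ih]; abel
      have h2 : h * e = e * h + 2 * e := by rw [← hE]; abel
      rw [pow_succ, ← mul_assoc, h1, add_mul, mul_assoc, h2, mul_add]
      have h3 : e ^ l * (2 * e) = 2 * (e ^ l * e) := by noncomm_ring
      rw [h3, zsmul_eq_mul, zsmul_eq_mul]
      push_cast
      noncomm_ring
  have h5 := weight_mem (lmul_rel hH) (lmul_rel' hE) (n := n)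
    (by rw [← map_pow, hn, map_zero]) l hln (e ^ l * a)
    (by change e * (e ^ l * a) = 0
        rwa [← mul_assoc, ← pow_succ'])
    ⟨a, by rw [← map_pow]; rfl⟩ hl0 (((-k + 2 * l : ℤ) : ℚ)) M
    (by
      rw [Polynomial.aeval_algHom_apply, aeval_lin]
      change (h - ((-k + 2 * l : ℤ) : R)) ^ M * (e ^ l * a) = 0
      rw [← mul_assoc, lin_pow_mul hy, mul_assoc, ha, mul_zero])
  obtain ⟨i, hi1, hi2, hi3⟩ := h5
  have : (-k + 2 * l : ℤ) = i := by exact_mod_cast hi3
  omega

theorem wt_pow {y : R} {c : ℤ} (hy : h * y - y * h = c • y) (k : ℕ) :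
    h * y ^ k - y ^ k * h = (k * c : ℤ) • y ^ k := by
  induction k with
  | zero => simp
  | succ k ih =>
    have h1 : h * y ^ k = y ^ k * h + (k * c : ℤ) • y ^ k := by rw [← ih]; abel
    have h2 : h * y = y * h + c • y := by rw [← hy]; abel
    rw [pow_succ, ← mul_assoc, h1, add_mul, mul_assoc, h2, mul_add]
    push_cast
    rw [add_mul, one_mul, add_smul, smul_mul_assoc, mul_smul_comm, mul_assoc]
    abel

/-- `ad a` as a `ℚ`-linear map. -/
noncomputable def adL (a : R) : Module.End ℚ R := LinearMap.mulLeft ℚ a - LinearMap.mulRight ℚ a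

theorem adL_apply (a x : R) : adL a x = a * x - x * a := rfl

theorem adL_rel (a b : R) : adL a * adL b - adL b * adL a = adL (a * b - b * a) := by
  ext x
  simp only [LinearMap.sub_apply, Module.End.mul_apply, adL_apply]
  noncomm_ring

theorem adL_nilp {a : R} (ha : IsNilpotent a) : IsNilpotent (adL a) := by
  refine Commute.isNilpotent_sub (LinearMap.commute_mulLeft_right a a) ?_ ?_
  · obtain ⟨k, hk⟩ := ha
    exact ⟨k, by rw [LinearMap.pow_mulLeft, hk]; ext x; simp⟩
  · obtain ⟨k, hk⟩ := ha
    exact ⟨k, by rw [LinearMap.pow_mulRight, hk]; ext x; simp⟩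

/-- Morozov's correction. -/
theorem morozov (hH : e * f - f * e = h) (hE : h * e - e * h = 2 * e) (he : IsNilpotent e)
    (N : Submodule ℚ R) (hN : ∀ x ∈ N, h * x - x * h ∈ N) (hf : f ∈ N) :
    ∃ f' ∈ N, e * f' - f' * e = h ∧ h * f' - f' * h = -(2 * f') := by
  obtain ⟨m, hm⟩ := adL_nilp he
  have hm1 : adL e ^ (m + 1) = 0 := by rw [pow_succ, hm, zero_mul]
  have hH' : adL e * adL f - adL f * adL e = adL h := by rw [adL_rel, hH]
  have hE' : adL h * adL e - adL e * adL h = 2 * adL e := by
    rw [adL_rel, hE]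
    ext x
    simp only [adL_apply, Module.End.mul_apply]
    have : (2 : Module.End ℚ R) (e * x - x * e) = 2 * (e * x - x * e) := by
      rw [show (2 : Module.End ℚ R) = 1 + 1 by norm_num, LinearMap.add_apply,
        Module.End.one_apply, two_mul]
    rw [this]
    noncomm_ring
  set g : R := h * f - f * h + 2 * f with hg
  have hge : adL e g = 0 := by
    have h1 : e * f = h + f * e := by rw [← hH]; abel
    have h2 : h * e = e * h + 2 * e := by rw [← hE]; abel
    have h3 : adL e g = (e * h) * f - (e * f) * h + 2 * (e * f) - h * (f * e) + f * (h * e)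
        - 2 * (f * e) := by
      rw [adL_apply, hg]; noncomm_ring
    have h4 : e * h = h * e - 2 * e := by rw [h2]; abel
    rw [h3, h4, sub_mul, mul_assoc, mul_assoc, h1, h2]
    have h5 : f * (e * h + 2 * e) = f * e * h + 2 * (f * e) := by noncomm_ring
    rw [h5]
    noncomm_ring
  have hgN : g ∈ N := by
    refine N.add_mem (hN f hf) ?_
    rw [two_mul]
    exact N.add_mem hf hf
  have hj := jacobson hH' hE' hm1 0 (by omega) g hge (by simp)
  have hcop : IsCoprime (X - C (-2 : ℚ)) (segPoly 0 (m + 1 - 0)) := by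
    refine IsCoprime.prod_right fun i _ => isCoprime_X_sub_C_of_isUnit_sub ?_
    rw [isUnit_iff_ne_zero]
    intro h0
    have h1 : (0 : ℚ) ≤ ((0 + i : ℕ) : ℚ) := Nat.cast_nonneg _
    linarith
  obtain ⟨a, b, hab⟩ := hcop
  have h1 : aeval (adL h) (a * (X - C (-2 : ℚ)) + b * segPoly 0 (m + 1 - 0)) g = g := by
    rw [hab]; simp
  rw [map_add (aeval (adL h)), LinearMap.add_apply, map_mul, map_mul, Module.End.mul_apply,
    Module.End.mul_apply, hj, map_zero, add_zero, ← Module.End.mul_apply, ← map_mul,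
    mul_comm a, map_mul, Module.End.mul_apply] at h1
  set z : R := aeval (adL h) a g with hz
  have hz1 : h * z - z * h + 2 * z = g := by
    rw [← h1, map_sub, aeval_X, aeval_C, LinearMap.sub_apply, adL_apply,
      Module.algebraMap_end_apply, neg_smul, sub_neg_eq_add, two_mul, two_smul]
  have hz2 : adL e z = 0 := by
    have := congrArg (fun T : Module.End ℚ R => T g) (E_mul_aeval hE' a)
    simp only [Module.End.mul_apply] at this
    rw [hz, this, hge, map_zero]
  have hzN : z ∈ N := by
    have key : ∀ (q : ℚ[X]) (x : R), x ∈ N → aeval (adL h) q x ∈ N := by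
      intro q x hx
      induction q using Polynomial.induction_on' with
      | add p q hp hq => rw [map_add]; exact N.add_mem hp hq
      | monomial m c =>
        rw [aeval_monomial, Module.End.mul_apply, Module.algebraMap_end_apply]
        refine N.smul_mem _ ?_
        induction m with
        | zero => simpa using hx
        | succ m ih => rw [pow_succ', Module.End.mul_apply]; exact hN _ ih
    exact key a g hgN
  rw [adL_apply] at hz2
  refine ⟨f - z, N.sub_mem hf hzN, ?_, ?_⟩
  · rw [mul_sub, sub_mul, ← hH, ← sub_eq_zero, ← neg_eq_zero, ← hz2]; abel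
  · have h6 : h * (f - z) - (f - z) * h = (h * f - f * h + 2 * f) - (h * z - z * h + 2 * z)
      - 2 * (f - z) := by noncomm_ring
    rw [h6, hz1, hg]
    abel

end Ring

end Pool.Agent.Helper47.CK
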