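import Pool.Agent.Helper47.CK.Jacobson
import Pool.Agent.Helper47.CK.Idem

/-!
# Consequences of `[e, f] = h`, `[h, e] = 2 e`, `e` nilpotent in a `ℚ`-algebra
-/

set_option autoImplicit false

open Polynomial

namespace Pool.Agent.Helper47.CK

/-- The Casimir element. -/
def cas {R : Type*} [Ring R] (e f h : R) : R := 4 * (f * e) + h ^ 2 + 2 * h

theorem commute_aeval {R : Type*} [Ring R] [Algebra ℚ R] {a b : R} (h : Commute a b)
    (p : ℚ[X]) : Commute a (aeval b p) := by
  induction p using Polynomial.induction_on' with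
  | add p q hp hq => rw [map_add]; exact hp.add_right hq
  | monomial m c =>
    rw [aeval_monomial]
    exact Commute.mul_right (Algebra.commutes c a).symm (h.pow_right m)

theorem cas_comm {R : Type*} [Ring R] {E F H : R} (hH : E * F - F * E = H) (hE : H * E - E * H = 2 * E) :
    Commute E (cas E F H) := by
  have h1 : E * F = H + F * E := by rw [← hH]; abel
  have h2 : H * E = E * H + 2 * E := by rw [← hE]; abel
  have h3 : H ^ 2 * E = E * H ^ 2 + 4 * (E * H) + 4 * E := by
    rw [pow_two, mul_assoc, h2, mul_add, ← mul_assoc, h2]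
    have : H * (2 * E) = 2 * (H * E) := by noncomm_ring
    rw [this, h2]
    noncomm_ring
  have h4 : E * (4 * (F * E)) = 4 * (E * F * E) := by noncomm_ring
  rw [commute_iff_eq, cas, mul_add, mul_add, add_mul, add_mul, h3, h4, h1]
  have h5 : E * (2 * H) = 2 * (E * H) := by noncomm_ring
  have h6 : 2 * H * E = 2 * (E * H) + 4 * E := by
    rw [mul_assoc, h2]; noncomm_ring
  have h7 : (4 : R) * ((H + F * E) * E) = 4 * (F * E * E) + 4 * (E * H) + 8 * E := by
    rw [add_mul, h2]; noncomm_ring
  rw [h5, h6, h7]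
  noncomm_ring

section Module

variable {V : Type*} [AddCommGroup V] [Module ℚ V] {E F H : Module.End ℚ V}

theorem aeval_comp_shift (c : ℚ) (p : ℚ[X]) :
    aeval (H - algebraMap ℚ _ c) p = aeval H (p.comp (X - C c)) := by
  rw [aeval_comp]; simp

theorem E_pow_mul_aeval (hE : H * E - E * H = 2 * E) (p : ℚ[X]) (k : ℕ) :
    E ^ k * aeval H p = aeval H (p.comp (X - C ((2 * k : ℕ) : ℚ))) * E ^ k := by
  induction k with
  | zero => simp
  | succ k ih =>
    rw [pow_succ', mul_assoc, ih, ← mul_assoc, E_mul_aeval hE, mul_assoc]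
    congr 1
    have h2 : (H - 2 : Module.End ℚ V) = H - algebraMap ℚ _ (2 : ℚ) := by
      rw [map_ofNat]
    rw [h2, aeval_comp_shift, Polynomial.comp_assoc]
    congr 2
    simp only [sub_comp, X_comp, C_comp]
    rw [sub_sub, ← C_add]
    congr 2
    push_cast; ring

theorem seg_dvd (n k : ℕ) (hk : k ≤ n) :
    segPoly k (n + 1 - k) ∣ (gPoly n 1).comp (X - C ((2 * k : ℕ) : ℚ)) := by
  refine Finset.prod_dvd_of_coprime ?_ ?_
  · intro s _ t _ hst
    refine isCoprime_X_sub_C_of_isUnit_sub ?_
    rw [isUnit_iff_ne_zero, sub_ne_zero]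
    intro h
    apply hst
    have : k + s = k + t := by exact_mod_cast h
    omega
  · intro i hi
    have hi' := Finset.mem_range.1 hi
    rw [dvd_iff_isRoot, IsRoot, eval_comp, gPoly, eval_prod]
    refine Finset.prod_eq_zero (i := (i : ℤ) - k) (Finset.mem_Icc.2 ⟨by omega, by omega⟩) ?_
    simp
    ring

theorem gPoly_kill (hH : E * F - F * E = H) (hE : H * E - E * H = 2 * E) {n : ℕ}
    (hn : E ^ (n + 1) = 0) (k : ℕ) (hk : k ≤ n + 1) (x : V) (hx : (E ^ k) x = 0) :
    aeval H ((gPoly n 1) ^ k) x = 0 := by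
  induction k generalizing x with
  | zero => simpa using hx
  | succ k ih =>
    rw [pow_succ, map_mul, Module.End.mul_apply]
    refine ih (by omega) _ ?_
    have h1 := congrArg (fun T : Module.End ℚ V => T x) (E_pow_mul_aeval hE (gPoly n 1) k)
    simp only [Module.End.mul_apply] at h1
    rw [h1]
    obtain ⟨q, hq⟩ := seg_dvd n k (by omega)
    rw [hq, mul_comm, map_mul, Module.End.mul_apply,
      jacobson hH hE hn k (by omega) ((E ^ k) x) ?_ ⟨x, rfl⟩, map_zero]
    rwa [← Module.End.mul_apply, ← pow_succ']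

/-- On `ker E` the Casimir operator is `H^2 + 2 H`. -/
theorem cas_ker (hE : H * E - E * H = 2 * E) (p : ℚ[X]) (x : V)
    (hx : E x = 0) :
    aeval (cas E F H) p x = aeval H (p.comp (X ^ 2 + 2 * X)) x := by
  have hker : ∀ (q : ℚ[X]) (y : V), E y = 0 → E (aeval H q y) = 0 := by
    intro q y hy
    have := congrArg (fun T : Module.End ℚ V => T y) (E_mul_aeval hE q)
    simp only [Module.End.mul_apply] at this
    rw [this, hy, map_zero]
  have hcas : ∀ y : V, E y = 0 →
      (cas E F H) y = aeval H (X ^ 2 + 2 * X : ℚ[X]) y := by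
    intro y hy
    rw [cas]
    have h0 : (4 * (F * E) : Module.End ℚ V) y = 0 := by
      rw [← mul_assoc, Module.End.mul_apply, hy, map_zero]
    rw [add_assoc, LinearMap.add_apply, h0, zero_add, map_add, map_pow, map_mul, aeval_X,
      map_ofNat]
  induction p using Polynomial.induction_on' with
  | add p q hp hq =>
    rw [map_add, LinearMap.add_apply, hp, hq, add_comp, map_add, LinearMap.add_apply]
  | monomial m a =>
    rw [← C_mul_X_pow_eq_monomial, map_mul, aeval_C, Module.End.mul_apply, mul_comp, C_comp,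
      map_mul, aeval_C, Module.End.mul_apply, map_pow, aeval_X, X_pow_comp]
    congr 1
    induction m with
    | zero => simp
    | succ m ih =>
      rw [pow_succ', Module.End.mul_apply, ih, hcas _ (hker _ _ hx), ← Module.End.mul_apply,
        ← map_mul, ← pow_succ']

/-- The polynomial `∏_{i ≤ n} (X - i (i + 2))`. -/
noncomputable def casPoly (n : ℕ) : ℚ[X] :=
  ∏ i ∈ Finset.range (n + 1), (X - C ((i * (i + 2) : ℕ) : ℚ))

theorem seg_dvd_cas (n : ℕ) : segPoly 0 (n + 1) ∣ (casPoly n).comp (X ^ 2 + 2 * X) := by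
  refine Finset.prod_dvd_of_coprime ?_ ?_
  · intro s _ t _ hst
    refine isCoprime_X_sub_C_of_isUnit_sub ?_
    rw [isUnit_iff_ne_zero, sub_ne_zero]
    intro h
    apply hst
    have : 0 + s = 0 + t := by exact_mod_cast h
    omega
  · intro i hi
    rw [dvd_iff_isRoot, IsRoot, eval_comp, casPoly, eval_prod]
    refine Finset.prod_eq_zero hi ?_
    simp
    ring

theorem cas_kill (hH : E * F - F * E = H) (hE : H * E - E * H = 2 * E) {n : ℕ}
    (hn : E ^ (n + 1) = 0) (k : ℕ) (hk : k ≤ n + 1) (x : V) (hx : (E ^ k) x = 0) :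
    aeval (cas E F H) ((casPoly n) ^ k) x = 0 := by
  induction k generalizing x with
  | zero => simpa using hx
  | succ k ih =>
    rw [pow_succ, map_mul, Module.End.mul_apply]
    refine ih (by omega) _ ?_
    have hc : Commute (E ^ k) (aeval (cas E F H) (casPoly n)) := by
      refine (Commute.pow_left ?_ k)
      exact commute_aeval (cas_comm hH hE) (casPoly n)
    rw [← Module.End.mul_apply, hc.eq, Module.End.mul_apply]
    have hx' : E ((E ^ k) x) = 0 := by
      rwa [← Module.End.mul_apply, ← pow_succ']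
    rw [cas_ker hE _ _ hx']
    obtain ⟨q, hq⟩ := seg_dvd_cas n
    rw [hq, mul_comm, map_mul, Module.End.mul_apply]
    have := jacobson hH hE hn 0 (by omega) ((E ^ k) x) hx' (by simp)
    rw [Nat.sub_zero] at this
    rw [this, map_zero]

end Module

end Pool.Agent.Helper47.CK
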