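import Pool.Agent.Helper47.CK.Coh

/-!
# Correspondence theories and Chow-Kuenneth decompositions
-/

set_option autoImplicit false

open CategoryTheory

namespace Pool.Agent.Helper47.CK

universe v u w

/-- The formal properties of smooth projective complex varieties, of correspondences modulo
rational equivalence with rational coefficients, and of their Betti cohomology. The objects of
`C` are the varieties, `X ⟶ Y` is `CH^*(X × Y)` and composition is the composition of
correspondences. -/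
class CorrTheory (C : Type u) [Category.{v} C] [Preadditive C] [Linear ℚ C] where
  /-- the dimension -/
  dim : C → ℕ
  /-- correspondences of degree `k`, i.e. the subgroup `CH^{dim X + k}(X × Y)` -/
  deg : ∀ X Y : C, ℤ → Submodule ℚ (X ⟶ Y)
  id_mem : ∀ X : C, 𝟙 X ∈ deg X X 0
  comp_mem : ∀ {X Y Z : C} {a b : ℤ} {f : X ⟶ Y} {g : Y ⟶ Z},
    f ∈ deg X Y a → g ∈ deg Y Z b → f ≫ g ∈ deg X Z (a + b)
  deg_bot : ∀ {X Y : C} {k : ℤ}, (k < -(dim X : ℤ) ∨ (dim Y : ℤ) < k) → deg X Y k = ⊥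
  /-- the cohomology `H^*(X, ℚ)` -/
  H : C → Type w
  [hgrp : ∀ X, AddCommGroup (H X)]
  [hmod : ∀ X, Module ℚ (H X)]
  /-- the subspace `H^j(X, ℚ)` -/
  coh : ∀ X : C, ℤ → Submodule ℚ (H X)
  coh_bot : ∀ {X : C} {j : ℤ}, (j < 0 ∨ 2 * (dim X : ℤ) < j) → coh X j = ⊥
  /-- the action of correspondences on cohomology -/
  act : ∀ {X Y : C}, (X ⟶ Y) →ₗ[ℚ] (H X →ₗ[ℚ] H Y)
  act_id : ∀ (X : C) (x : H X), act (𝟙 X) x = x
  act_comp : ∀ {X Y Z : C} (f : X ⟶ Y) (g : Y ⟶ Z) (x : H X), act (f ≫ g) x = act g (act f x)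
  act_mem : ∀ {X Y : C} {k j : ℤ} {f : X ⟶ Y} {x : H X},
    f ∈ deg X Y k → x ∈ coh X j → act f x ∈ coh Y (j + 2 * k)

attribute [instance] CorrTheory.hgrp CorrTheory.hmod

open CorrTheory

variable {C : Type u} [Category.{v} C] [Preadditive C] [Linear ℚ C] [CorrTheory.{v, u, w} C]

/-- `e` is a correspondence of degree `1` which satisfies the hard Lefschetz theorem on
cohomology; by the hard Lefschetz theorem `e = Δ_* l` is one, if `l` is an ample class. -/
structure IsLef {X : C} (e : End X) : Prop where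
  mem : e ∈ deg X X 1
  hard : ∀ k : ℕ, k ≤ dim X →
    Set.BijOn (act (e ^ k : End X)) (coh X (dim X - k)) (coh X (dim X + k))

/-- The family `π⁰, …, π^{2d}` is a Chow-Kuenneth decomposition of `X`. -/
structure IsCK (X : C) (π : Fin (2 * dim X + 1) → (X ⟶ X)) : Prop where
  deg_zero : ∀ i, π i ∈ deg X X 0
  idem : ∀ i, π i ≫ π i = π i
  orth : ∀ i j, i ≠ j → π i ≫ π j = 0
  sum_eq : ∑ i, π i = 𝟙 X
  act_self : ∀ (i : Fin (2 * dim X + 1)), ∀ x ∈ coh X (i : ℤ), act (π i) x = x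
  act_other : ∀ (i : Fin (2 * dim X + 1)) (j : ℤ), j ≠ i → ∀ x ∈ coh X j, act (π i) x = 0

/-- `X` has a Chow-Kuenneth decomposition. -/
def HasCK (X : C) : Prop := ∃ π : Fin (2 * dim X + 1) → (X ⟶ X), IsCK X π

/-- The linear Lefschetz equation: there is a correspondence `f` of degree `-1` with
`[e, [e, f]] = -2 e`. For `e = Δ_* l` this is the linear equation
`(p₂^* l - p₁^* l)² · f = -2 Δ_* l` in the Chow ring of `X × X`. -/
def LinLef {X : C} (e : X ⟶ X) : Prop :=
  ∃ f ∈ deg X X (-1), e ≫ e ≫ f - (2 : ℤ) • (e ≫ f ≫ e) + f ≫ e ≫ e = -((2 : ℤ) • e)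

/-- The graded ring of self-correspondences. -/
def gr (X : C) (k : ℤ) : Submodule ℚ (End X) := deg X X k

theorem gr_one (X : C) : (1 : End X) ∈ gr X 0 := id_mem X

theorem gr_mul (X : C) (a b : ℤ) (x y : End X) (hx : x ∈ gr X a) (hy : y ∈ gr X b) :
    x * y ∈ gr X (a + b) := by
  rw [add_comm]
  exact comp_mem hy hx

theorem gr_bot (X : C) (k : ℤ) (hk : (dim X : ℤ) < |k|) : gr X k = ⊥ := by
  refine deg_bot ?_
  rcases abs_cases k with ⟨h, _⟩ | ⟨h, _⟩ <;> omega

theorem data_of_linLef {X : C} {e : End X} (he : e ∈ gr X 1) (hL : LinLef e) :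
    Nonempty (LefData (gr X) e (dim X)) := by
  obtain ⟨f, hf, hL⟩ := hL
  refine exists_data (f := f) (gr_one X) (gr_mul X) (gr_bot X) he hf ?_
  have h1 : ∀ x y : End X, x * y = y ≫ x := fun _ _ => rfl
  have h2 : ∀ x : End X, (2 : End X) * x = (2 : ℤ) • x := by
    intro x; rw [two_mul, two_smul]
  rw [h2, h2]
  simp only [h1]
  rw [← hL]
  have h3 : f ≫ e ≫ e - (2 : ℤ) • (e ≫ f ≫ e) + (e ≫ e ≫ f) =
    e ≫ e ≫ f - (2 : ℤ) • (e ≫ f ≫ e) + f ≫ e ≫ e := by abel
  rw [← h3]

/-- The cohomological action. -/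
noncomputable def grAct {X : C} {e : End X} (he : IsLef e) :
    GrAct (gr X) e (dim X) (H X) where
  coh := coh X
  rho :=
    { toFun := fun f => act f
      map_one' := by ext x; exact act_id X x
      map_mul' := by intro x y; ext z; exact act_comp y x z
      map_zero' := map_zero _
      map_add' := map_add _ }
  rho_mem := fun k j x y hx hy => act_mem hx hy
  coh_bot := fun j hj => coh_bot hj
  inj := by
    intro k hk x hx h0
    have h1 := (he.hard k hk).injOn
    refine h1 hx (Submodule.zero_mem _) ?_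
    rw [map_zero]
    exact h0
  surj := by
    intro k hk y hy
    obtain ⟨x, hx, hxy⟩ := (he.hard k hk).surjOn hy
    exact ⟨x, hx, hxy⟩

/-- From projectors indexed by `ℤ`. -/
theorem isCK_of_int {X : C} (p : ℤ → End X) (hdeg : ∀ i, p i ∈ gr X 0)
    (hid : ∀ i, p i * p i = p i) (horth : ∀ i j, i ≠ j → p i * p j = 0)
    (hsum : ∑ i ∈ Finset.Icc (0 : ℤ) (2 * (dim X : ℤ)), p i = 1)
    (hact : ∀ (i : ℤ), ∀ x ∈ coh X i, act (p i) x = x)
    (hact' : ∀ (i j : ℤ), j ≠ i → ∀ x ∈ coh X j, act (p i) x = 0) :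
    IsCK X (fun i => p (i : ℕ)) := by
  refine ⟨fun i => hdeg _, fun i => hid _, fun i j hij => ?_, ?_,
    fun i => hact _, fun i => hact' _⟩
  · refine horth _ _ fun h => hij ?_
    have : (j : ℕ) = (i : ℕ) := by exact_mod_cast h
    exact (Fin.ext this).symm
  · rw [← Finset.sum_range (fun i : ℕ => p (i : ℤ))]
    refine Eq.trans ?_ hsum
    refine Finset.sum_bij (fun i _ => (i : ℤ)) ?_ ?_ ?_ ?_
    · intro i hi
      have := Finset.mem_range.1 hi
      exact Finset.mem_Icc.2 ⟨by omega, by omega⟩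
    · intro i _ j _ h
      exact_mod_cast h
    · intro b hb
      have := Finset.mem_Icc.1 hb
      exact ⟨b.toNat, Finset.mem_range.2 (by omega), by omega⟩
    · intro i _; rfl

end Pool.Agent.Helper47.CK
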